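import Mathlib

/-!
Coprime action inside one group: a `q` subgroup `A` normalising a subgroup `R` of order prime to
`q`. Fixed points in cosets, `R = C_R(A) [R, A]`, `[R, A, A] = [R, A]`, the `A x B` lemma.
-/

namespace Pool.Agent.H3.FT

open Subgroup
open scoped commutatorElement

variable {G : Type*} [Group G]

/-- a `q` group `A` normalising `N`, `q` prime to the order of `N`, acting trivially on the coset
`r N`: the coset contains an element commuting with `A` -/
theorem cop_fix {q : ℕ} (hq : q.Prime) {A N : Subgroup G} (hA : IsPGroup q A)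
    (hAN : A ≤ normalizer (N : Set G)) (hN : ¬ q ∣ Nat.card N) (r : G)
    (hr : ∀ a ∈ A, ⁅r⁻¹, a⁆ ∈ N) : ∃ n ∈ N, ∀ a ∈ A, a * (r * n) = (r * n) * a := by
  have : Fact q.Prime := ⟨hq⟩
  have hmem : ∀ (a : A) (n : N), r⁻¹ * ((a : G) * (r * n) * (a : G)⁻¹) ∈ N := by
    intro a n
    have h1 := hr a a.2
    have h2 := (mem_normalizer_iff.1 (hAN a.2) n).1 n.2
    have h3 := N.mul_mem h1 h2
    rw [commutatorElement_def, inv_inv] at h3
    convert h3 using 1
    group
  let _ : MulAction A N :=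
    { smul := fun a n => ⟨r⁻¹ * ((a : G) * (r * n) * (a : G)⁻¹), hmem a n⟩
      one_smul := fun n => Subtype.ext (by
        show r⁻¹ * (((1 : A) : G) * (r * n) * ((1 : A) : G)⁻¹) = n
        rw [OneMemClass.coe_one]; group)
      mul_smul := fun a b n => Subtype.ext (by
        show r⁻¹ * (((a * b : A) : G) * (r * n) * ((a * b : A) : G)⁻¹) =
          r⁻¹ * ((a : G) * (r * (r⁻¹ * ((b : G) * (r * n) * (b : G)⁻¹))) * (a : G)⁻¹)
        rw [Subgroup.coe_mul]; group) }
  obtain ⟨n, hn⟩ := hA.nonempty_fixed_point_of_prime_not_dvd_card N hN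
  refine ⟨n, n.2, fun a ha => ?_⟩
  have h1 : (⟨a, ha⟩ : A) • n = n := hn ⟨a, ha⟩
  have h2 : r⁻¹ * (a * (r * n) * a⁻¹) = n := congrArg Subtype.val h1
  rw [inv_mul_eq_iff_eq_mul, mul_inv_eq_iff_eq_mul] at h2
  exact h2

/-- the same inside `R` -/
theorem cop_fix_mem {q : ℕ} (hq : q.Prime) {A N R : Subgroup G} (hA : IsPGroup q A)
    (hAN : A ≤ normalizer (N : Set G)) (hN : ¬ q ∣ Nat.card N) (hNR : N ≤ R) {r : G} (hrR : r ∈ R)
    (hr : ∀ a ∈ A, ⁅r⁻¹, a⁆ ∈ N) :
    ∃ c ∈ R, (∀ a ∈ A, a * c = c * a) ∧ ∃ d ∈ N, r = c * d := by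
  obtain ⟨n, hn, h⟩ := cop_fix hq hA hAN hN r hr
  exact ⟨r * n, R.mul_mem hrR (hNR hn), h, n⁻¹, N.inv_mem hn, by group⟩

/-- `[R, A] ≤ R` -/
theorem comm_le {A R : Subgroup G} (hAR : A ≤ normalizer (R : Set G)) : ⁅R, A⁆ ≤ R :=
  le_normalizer_iff_commutator_le_left.1 hAR

theorem not_dvd_of_le [Finite G] {q : ℕ} {N R : Subgroup G} (h : N ≤ R) (hR : ¬ q ∣ Nat.card R) :
    ¬ q ∣ Nat.card N := fun hd => hR (hd.trans (Subgroup.card_dvd_of_le h))

/-- `R = C_R(A) [R, A]` -/
theorem cop_mul [Finite G] {q : ℕ} (hq : q.Prime) {A R : Subgroup G} (hA : IsPGroup q A)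
    (hAR : A ≤ normalizer (R : Set G)) (hR : ¬ q ∣ Nat.card R) {r : G} (hr : r ∈ R) :
    ∃ c ∈ R, (∀ a ∈ A, a * c = c * a) ∧ ∃ d ∈ ⁅R, A⁆, r = c * d :=
  cop_fix_mem hq hA (normalizer_commutator_ge_right R A) (not_dvd_of_le (comm_le hAR) hR)
    (comm_le hAR) hr fun _ ha => commutator_mem_commutator (R.inv_mem hr) ha

/-- `[R, A, A] = [R, A]` -/
theorem cop_comm [Finite G] {q : ℕ} (hq : q.Prime) {A R : Subgroup G} (hA : IsPGroup q A)
    (hAR : A ≤ normalizer (R : Set G)) (hR : ¬ q ∣ Nat.card R) : ⁅⁅R, A⁆, A⁆ = ⁅R, A⁆ := by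
  apply le_antisymm (commutator_mono (comm_le hAR) le_rfl)
  rw [commutator_le]
  intro r hr a ha
  obtain ⟨c, hc, hca, d, hd, rfl⟩ := cop_mul hq hA hAR hR hr
  have h1 : c * d * c⁻¹ ∈ ⁅R, A⁆ :=
    (mem_normalizer_iff.1 (normalizer_commutator_ge_left R A hc) d).1 hd
  have h2 : ⁅c * d, a⁆ = ⁅c * d * c⁻¹, a⁆ := by
    have h3 : c⁻¹ * a = a * c⁻¹ := by
      rw [inv_mul_eq_iff_eq_mul, ← mul_assoc, ← hca a ha]; group
    simp only [commutatorElement_def, mul_inv_rev, inv_inv]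
    calc c * d * a * (d⁻¹ * c⁻¹) * a⁻¹ = c * d * a * (d⁻¹ * (c⁻¹ * a⁻¹)) := by group
      _ = c * d * (a * (c⁻¹ * c)) * (d⁻¹ * (c⁻¹ * a⁻¹)) := by group
      _ = c * d * (c⁻¹ * a * c) * (d⁻¹ * (c⁻¹ * a⁻¹)) := by rw [h3]; group
      _ = c * d * c⁻¹ * a * (c * (d⁻¹ * c⁻¹)) * a⁻¹ := by group
  rw [h2]
  exact commutator_mem_commutator h1 ha

/-- if `N ≤ R` is normalised by `A` and `[R, A] ≤ N` and `A` centralises `N` then `A` centralises
`R` -/
theorem cop_stab [Finite G] {q : ℕ} (hq : q.Prime) {A R N : Subgroup G} (hA : IsPGroup q A)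
    (hAR : A ≤ normalizer (R : Set G)) (hR : ¬ q ∣ Nat.card R) (h1 : ⁅R, A⁆ ≤ N)
    (h2 : ⁅N, A⁆ = ⊥) : ⁅R, A⁆ = ⊥ := by
  rw [← cop_comm hq hA hAR hR, ← le_bot_iff, ← h2]
  exact commutator_mono h1 le_rfl

/-- in a `p` group a nontrivial normal subgroup `D` has `[D, X] < D` -/
theorem comm_lt_of_pgroup [Finite G] {p : ℕ} (hp : p.Prime) {D X : Subgroup G}
    (hD : IsPGroup p D) (hX : IsPGroup p X) (hXD : X ≤ normalizer (D : Set G)) (hD1 : D ≠ ⊥) :
    ⁅D, X⁆ < D := by
  have : Fact p.Prime := ⟨hp⟩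
  refine lt_of_le_of_ne (comm_le hXD) fun h => hD1 ?_
  have hP : IsPGroup p (D ⊔ X : Subgroup G) := IsPGroup.to_sup_of_normal_left' hD hX hXD
  have hnil : Group.IsNilpotent (D ⊔ X : Subgroup G) := hP.isNilpotent
  have h1 : ∀ n : ℕ, D ≤ (D ⊔ X).lowerCentralSeries n := by
    intro n
    induction n with
    | zero => exact le_sup_left
    | succ n ih =>
      calc D = ⁅D, X⁆ := h.symm
        _ ≤ ⁅(D ⊔ X).lowerCentralSeries n, D ⊔ X⁆ := commutator_mono ih le_sup_right
        _ = _ := rfl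
  obtain ⟨n, hn⟩ := (isNilpotent_iff_lowerCentralSeries (D ⊔ X)).1 hnil
  exact le_bot_iff.1 (hn ▸ h1 n)

/-- the order of a `p` subgroup is prime to `q` for `q ≠ p` -/
theorem not_dvd_pgroup [Finite G] {p q : ℕ} (hp : p.Prime) (hq : q.Prime) (hpq : p ≠ q)
    {P : Subgroup G} (hP : IsPGroup p P) : ¬ q ∣ Nat.card P := by
  have : Fact p.Prime := ⟨hp⟩
  intro h
  obtain ⟨k, hk⟩ := IsPGroup.iff_card.1 hP
  rw [hk] at h
  exact hpq ((Nat.prime_dvd_prime_iff_eq hq hp).1 (hq.dvd_of_dvd_pow h)).symm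

/-- the `A x B` lemma of Thompson, subgroup form: `X` a `p` group, `B` a `q` group, `[X, B] = 1`,
both normalise the `p` group `P`, and `B` centralises `C_P(X)` -/
theorem axb_sub [Finite G] {p q : ℕ} (hp : p.Prime) (hq : q.Prime) (hpq : p ≠ q)
    {X B : Subgroup G} (hX : IsPGroup p X) (hB : IsPGroup q B) (hXB : ⁅X, B⁆ = ⊥) :
    ∀ (m : ℕ) (P : Subgroup G), Nat.card P ≤ m → IsPGroup p P → X ≤ normalizer (P : Set G) →
      B ≤ normalizer (P : Set G) → ⁅P ⊓ centralizer (X : Set G), B⁆ = ⊥ → ⁅P, B⁆ = ⊥ := by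
  intro m
  induction m with
  | zero =>
    intro P hm
    have : 0 < Nat.card P := Nat.card_pos
    omega
  | succ m ih =>
    intro P hm hP hXP hBP hc
    by_contra hne
    set D := ⁅P, B⁆ with hD
    have hDP : D ≤ P := comm_le hBP
    have hDp : IsPGroup p D := hP.to_le hDP
    have hBD : B ≤ normalizer (D : Set G) := normalizer_commutator_ge_right P B
    have hXD : X ≤ normalizer (D : Set G) := by
      intro x hx
      rw [mem_normalizer_iff_map_conj_eq, hD, map_commutator]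
      have h1 : P.map (MulAut.conj x : G →* G) = P := mem_normalizer_iff_map_conj_eq.1 (hXP hx)
      have h2 : B.map (MulAut.conj x : G →* G) = B := by
        apply mem_normalizer_iff_map_conj_eq.1
        rw [commutator_eq_bot_iff_le_centralizer] at hXB
        exact centralizer_le_normalizer _ (hXB hx)
      rw [h1, h2]
    have hDD : ⁅D, B⁆ = D := cop_comm hq hB hBP (not_dvd_pgroup hp hq hpq hP)
    set E := ⁅D, X⁆ with hE
    have hED : E < D := comm_lt_of_pgroup hp hDp hX hXD hne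
    have hcard : Nat.card E ≤ m := by
      have h1 : Nat.card E < Nat.card D := by
        apply lt_of_le_of_ne (Subgroup.card_le_of_le hED.le)
        intro h
        exact hED.ne (Subgroup.eq_of_le_of_card_ge hED.le h.ge)
      have h2 : Nat.card D ≤ Nat.card P := Subgroup.card_le_of_le hDP
      omega
    have hXE : X ≤ normalizer (E : Set G) := normalizer_commutator_ge_right D X
    have hBE : B ≤ normalizer (E : Set G) := by
      intro b hb
      rw [mem_normalizer_iff_map_conj_eq, hE, map_commutator]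
      have h1 : D.map (MulAut.conj b : G →* G) = D := mem_normalizer_iff_map_conj_eq.1 (hBD hb)
      have h2 : X.map (MulAut.conj b : G →* G) = X := by
        apply mem_normalizer_iff_map_conj_eq.1
        rw [commutator_comm, commutator_eq_bot_iff_le_centralizer] at hXB
        exact centralizer_le_normalizer _ (hXB hb)
      rw [h1, h2]
    have hEB : ⁅E, B⁆ = ⊥ := by
      refine ih E hcard (hDp.to_le hED.le) hXE hBE ?_
      rw [← le_bot_iff, ← hc]
      exact commutator_mono (inf_le_inf_right _ (hED.le.trans hDP)) le_rfl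
    -- three subgroups lemma
    have h3 : ⁅⁅B, D⁆, X⁆ = ⊥ := by
      apply commutator_commutator_eq_bot_of_rotate
      · rw [← hE]; exact hEB
      · rw [hXB, commutator_bot_left]
    have h4 : ⁅D, X⁆ = ⊥ := by rw [commutator_comm B D, hDD] at h3; exact h3
    have h5 : D ≤ P ⊓ centralizer (X : Set G) :=
      le_inf hDP (commutator_eq_bot_iff_le_centralizer.1 h4)
    apply hne
    rw [← le_bot_iff, ← hc, ← hDD]
    exact commutator_mono h5 le_rfl

/-- a subgroup containing all elements of prime power order of `⟨v⟩` contains `v` -/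
theorem mem_of_prime_parts {C : Subgroup G} : ∀ (n : ℕ) (v : G), 0 < orderOf v → orderOf v ≤ n →
    (∀ q : ℕ, q.Prime → ∀ w ∈ zpowers v, (∃ k, w ^ q ^ k = 1) → w ∈ C) → v ∈ C := by
  intro n
  induction n with
  | zero => intro v h0 h1; omega
  | succ n ih =>
    intro v h0 h1 h
    by_cases hv : orderOf v = 1
    · rw [orderOf_eq_one_iff] at hv
      rw [hv]; exact C.one_mem
    obtain ⟨q, hq, hqd⟩ := Nat.exists_prime_and_dvd hv
    obtain ⟨k, m, hm, hk⟩ := Nat.exists_eq_pow_mul_and_not_dvd h0.ne' q hq.ne_one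
    have hk0 : k ≠ 0 := by
      rintro rfl
      rw [pow_zero, one_mul] at hk
      exact hm (hk ▸ hqd)
    have hm0 : 0 < m := by
      rcases Nat.eq_zero_or_pos m with rfl | h'
      · simp at hm
      · exact h'
    have hcop : Nat.Coprime (q ^ k) m := Nat.Coprime.pow_left k ((Nat.Prime.coprime_iff_not_dvd hq).2 hm)
    have hbez := Nat.gcd_eq_gcd_ab (q ^ k) m
    rw [hcop] at hbez
    have hv1 : v = (v ^ q ^ k) ^ (Nat.gcdA (q ^ k) m) * (v ^ m) ^ (Nat.gcdB (q ^ k) m) := by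
      rw [← zpow_natCast, ← zpow_natCast, ← zpow_mul, ← zpow_mul, ← zpow_add]
      have : ((q ^ k : ℕ) : ℤ) * Nat.gcdA (q ^ k) m + (m : ℤ) * Nat.gcdB (q ^ k) m = 1 := by
        rw [← hbez]; rfl
      rw [this, zpow_one]
    have h2 : v ^ m ∈ C := by
      refine h q hq _ (npow_mem_zpowers v m) ⟨k, ?_⟩
      rw [← pow_mul, mul_comm, ← hk, pow_orderOf_eq_one]
    have h3 : v ^ q ^ k ∈ C := by
      have hdvd : orderOf (v ^ q ^ k) ∣ m := by
        apply orderOf_dvd_of_pow_eq_one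
        rw [← pow_mul, ← hk, pow_orderOf_eq_one]
      have hmlt : m < orderOf v := by
        rw [hk]
        exact lt_mul_of_one_lt_left hm0 (Nat.one_lt_pow hk0 hq.one_lt)
      refine ih (v ^ q ^ k) (Nat.pos_of_dvd_of_pos hdvd hm0)
        ((Nat.le_of_dvd hm0 hdvd).trans (by omega)) ?_
      intro r hr w hw hwr
      refine h r hr w ?_ hwr
      exact (zpowers_le.2 (npow_mem_zpowers v _)) hw
    rw [hv1]
    exact C.mul_mem (C.zpow_mem h3 _) (C.zpow_mem h2 _)

/-- an element of a finite group lies in a subgroup containing all elements of prime power order of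
the cyclic group it generates -/
theorem mem_of_parts [Finite G] {C : Subgroup G} {v : G}
    (h : ∀ q : ℕ, q.Prime → ∀ w ∈ zpowers v, (∃ k, w ^ q ^ k = 1) → w ∈ C) : v ∈ C :=
  mem_of_prime_parts _ v (orderOf_pos v) le_rfl h

/-- elements of `q` power order in `⟨v⟩`, `p` prime to the order of `v` -/
theorem part_ne {p q : ℕ} (hp : p.Prime) (hq : q.Prime) {v w : G} (hv : ¬ p ∣ orderOf v)
    (hw : w ∈ zpowers v) (hwq : ∃ k, w ^ q ^ k = 1) (h1 : w ≠ 1) : p ≠ q := by
  rintro rfl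
  obtain ⟨k, hk⟩ := hwq
  have h2 : orderOf w ∣ p ^ k := orderOf_dvd_of_pow_eq_one hk
  obtain ⟨j, _, hj⟩ := (Nat.dvd_prime_pow hp).1 h2
  have h3 : orderOf w ∣ orderOf v := orderOf_dvd_of_mem_zpowers hw
  rcases Nat.eq_zero_or_pos j with rfl | hj0
  · rw [pow_zero, orderOf_eq_one_iff] at hj
    exact h1 hj
  · exact hv ((dvd_pow_self p hj0.ne').trans (hj ▸ h3))

/-- `⟨w⟩` is a `q` group -/
theorem zpowers_pgroup {q k : ℕ} {w : G} (hw : w ^ q ^ k = 1) : IsPGroup q (zpowers w) := by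
  rintro ⟨g, hg⟩
  obtain ⟨i, rfl⟩ := mem_zpowers_iff.1 hg
  refine ⟨k, Subtype.ext ?_⟩
  show (w ^ i) ^ q ^ k = 1
  rw [← zpow_natCast, ← zpow_mul, mul_comm, zpow_mul, zpow_natCast, hw, one_zpow]

/-- the `A x B` lemma for elements -/
theorem axb [Finite G] {p : ℕ} (hp : p.Prime) {P : Subgroup G} (hP : IsPGroup p P) {x v : G}
    (hx : ∃ k, x ^ p ^ k = 1) (hv : ¬ p ∣ orderOf v) (hxv : x * v = v * x)
    (hxP : x ∈ normalizer (P : Set G)) (hvP : v ∈ normalizer (P : Set G))
    (h : ∀ c ∈ P, c * x = x * c → c * v = v * c) : ∀ c ∈ P, c * v = v * c := by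
  obtain ⟨k, hk⟩ := hx
  have key : v ∈ centralizer (P : Set G) := by
    apply mem_of_parts
    intro q hq w hw hwq
    by_cases hw1 : w = 1
    · rw [hw1]; exact one_mem _
    have hpq := part_ne hp hq hv hw hwq hw1
    obtain ⟨j, hj⟩ := hwq
    obtain ⟨i, rfl⟩ := mem_zpowers_iff.1 hw
    have hcomm : ∀ c : G, c * v = v * c → c * v ^ i = v ^ i * c := fun c hc =>
      ((show Commute c v from hc).zpow_right i).eq
    have h1 := axb_sub hp hq hpq (X := zpowers x) (B := zpowers (v ^ i)) (zpowers_pgroup hk)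
      (zpowers_pgroup hj) (by
        rw [commutator_eq_bot_iff_le_centralizer, zpowers_le, mem_centralizer_iff]
        intro y hy
        obtain ⟨l, rfl⟩ := mem_zpowers_iff.1 hy
        have : Commute x (v ^ i) := hcomm x hxv
        exact ((this.zpow_right l).eq).symm) _ P le_rfl hP (zpowers_le.2 hxP)
      (zpowers_le.2 (zpow_mem hvP i)) (by
        rw [commutator_eq_bot_iff_le_centralizer]
        intro c hc
        obtain ⟨hcP, hcx⟩ := mem_inf.1 hc
        rw [mem_centralizer_iff] at hcx ⊢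
        have h2 := h c hcP (hcx x (mem_zpowers x)).symm
        intro y hy
        obtain ⟨l, rfl⟩ := mem_zpowers_iff.1 hy
        have h3 : Commute c (v ^ i) := hcomm c h2
        exact ((h3.zpow_right l).eq).symm)
    rw [commutator_eq_bot_iff_le_centralizer] at h1
    rw [mem_centralizer_iff]
    intro c hc
    exact ((mem_centralizer_iff.1 (h1 hc)) (v ^ i) (mem_zpowers _)).symm
  intro c hc
  exact mem_centralizer_iff.1 key c hc

/-- `[P, B, B] = [P, B]` for a `p` group `P` and a group `B` of order prime to `p` -/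
theorem cop_comm' [Finite G] {p : ℕ} (hp : p.Prime) {P B : Subgroup G} (hP : IsPGroup p P)
    (hBP : B ≤ normalizer (P : Set G)) (hB : ¬ p ∣ Nat.card B) : ⁅⁅P, B⁆, B⁆ = ⁅P, B⁆ := by
  apply le_antisymm (commutator_mono (comm_le hBP) le_rfl)
  set D := ⁅⁅P, B⁆, B⁆ with hD
  have hBD : B ≤ normalizer (D : Set G) := normalizer_commutator_ge_right _ _
  let C : Subgroup G :=
    { carrier := {b | b ∈ B ∧ ∀ c ∈ P, ⁅c, b⁆ ∈ D}
      one_mem' := ⟨B.one_mem, fun c _ => by rw [commutatorElement_one_right]; exact D.one_mem⟩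
      mul_mem' := fun {a b} ha hb => ⟨B.mul_mem ha.1 hb.1, fun c hc => by
        rw [commutatorElement_mul_right_eq_mul_conj]
        have h1 := ha.2 c hc
        have h2 := (mem_normalizer_iff.1 (hBD ha.1) _).1 (hb.2 c hc)
        have h3 := D.mul_mem h1 h2
        simpa [mul_assoc] using h3⟩
      inv_mem' := fun {a} ha => ⟨B.inv_mem ha.1, fun c hc => by
        rw [commutatorElement_inv_right, ← commutatorElement_inv]
        have h1 := D.inv_mem (ha.2 c hc)
        have h2 := (mem_normalizer_iff.1 (hBD (B.inv_mem ha.1)) _).1 h1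
        simpa using h2⟩ }
  rw [commutator_le]
  intro c hc b hb
  have hbC : b ∈ C := by
    apply mem_of_parts
    intro q hq w hw hwq
    have hwB : w ∈ B := (zpowers_le.2 hb) hw
    by_cases hw1 : w = 1
    · rw [hw1]; exact C.one_mem
    have hbp : ¬ p ∣ orderOf b := fun h => hB (h.trans (by
      rw [← Subgroup.orderOf_mk b hb]; exact orderOf_dvd_natCard _))
    have hpq := part_ne hp hq hbp hw hwq hw1
    obtain ⟨j, hj⟩ := hwq
    refine ⟨hwB, fun c hc => ?_⟩
    have h1 := cop_comm hq (A := zpowers w) (R := P) (zpowers_pgroup hj)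
      (zpowers_le.2 (hBP hwB)) (not_dvd_pgroup hp hq hpq hP)
    have h2 : ⁅c, w⁆ ∈ ⁅P, zpowers w⁆ := commutator_mem_commutator hc (mem_zpowers w)
    rw [← h1] at h2
    exact commutator_mono (commutator_mono le_rfl (zpowers_le.2 hwB)) (zpowers_le.2 hwB) h2
  exact hbC.2 c hc

/-- a group of order prime to `p` centralising `N ≥ [P, B]` centralises the `p` group `P` -/
theorem cop_stab' [Finite G] {p : ℕ} (hp : p.Prime) {P B N : Subgroup G} (hP : IsPGroup p P)
    (hBP : B ≤ normalizer (P : Set G)) (hB : ¬ p ∣ Nat.card B) (h1 : ⁅P, B⁆ ≤ N)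
    (h2 : ⁅N, B⁆ = ⊥) : ⁅P, B⁆ = ⊥ := by
  rw [← cop_comm' hp hP hBP hB, ← le_bot_iff, ← h2]
  exact commutator_mono h1 le_rfl

end Pool.Agent.H3.FT
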