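import Pool.Agent.H3.FT.Cop1

/-!
Coprime action, second part: action on abelian groups (`P = C_P(B) [P, B]`, `C_P(B) ∩ [P, B] = 1`),
on cyclic `p` groups, generation of a nilpotent group by centralisers of the elements of order `p`
of a noncyclic group.
-/

namespace Pool.Agent.H3.FT

open Subgroup
open scoped commutatorElement

variable {G : Type*} [Group G]

/-- a `p'` element centralising the elements of order `p` of a cyclic `p` group which it normalises
centralises the group -/
theorem cyc_cent [Finite G] {p : ℕ} (hp : p.Prime) {P : Subgroup G} (hP : IsPGroup p P)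
    (hc : IsCyclic P) {v : G} (hv : ¬ p ∣ orderOf v) (hvP : v ∈ normalizer (P : Set G))
    (h : ∀ c ∈ P, c ^ p = 1 → c * v = v * c) : ∀ c ∈ P, c * v = v * c := by
  -- induction on the order of the element
  have hab : ∀ a ∈ P, ∀ b ∈ P, a * b = b * a := by
    intro a ha b hb
    have := hc.isMulCommutative.is_comm.comm (⟨a, ha⟩ : P) ⟨b, hb⟩
    exact congrArg Subtype.val this
  have key : ∀ (k : ℕ) (c : G), c ∈ P → c ^ p ^ k = 1 → c * v = v * c := by
    intro k
    induction k with
    | zero =>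
      intro c _ hc1
      rw [pow_zero, pow_one] at hc1
      rw [hc1, one_mul, mul_one]
    | succ k ih =>
      intro c hc1 hck
      have h1 : c ^ p * v = v * c ^ p := ih (c ^ p) (P.pow_mem hc1 p) (by
        rw [← pow_mul, ← pow_succ']; exact hck)
      set z := v * c * v⁻¹ * c⁻¹ with hz
      have hvc : v * c * v⁻¹ ∈ P := (mem_normalizer_iff.1 hvP c).1 hc1
      have hzP : z ∈ P := P.mul_mem hvc (P.inv_mem hc1)
      have hzp : z ^ p = 1 := by
        have hcomm : Commute (v * c * v⁻¹) c⁻¹ := hab _ hvc _ (P.inv_mem hc1)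
        rw [hz, hcomm.mul_pow, conj_pow, ← h1]
        group
      have hzv : z * v = v * z := h z hzP hzp
      have hzc : z * c = c * z := hab z hzP c hc1
      -- `v ^ j c = z ^ j c v ^ j`
      have h2 : ∀ j : ℕ, v ^ j * c = z ^ j * c * v ^ j := by
        intro j
        induction j with
        | zero => simp
        | succ j ihj =>
          have h3 : v * c = z * c * v := by rw [hz]; group
          have h4 : v ^ j * z = z * v ^ j := ((show Commute z v from hzv).pow_right j).eq.symm
          calc v ^ (j + 1) * c = v ^ j * (v * c) := by rw [pow_succ, mul_assoc]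
            _ = (v ^ j * z) * c * v := by rw [h3]; group
            _ = z * (v ^ j * c) * v := by rw [h4]; group
            _ = z ^ (j + 1) * c * v ^ (j + 1) := by rw [ihj]; group
      have h3 := h2 (orderOf v)
      rw [pow_orderOf_eq_one, one_mul, mul_one] at h3
      have h4 : z ^ orderOf v = 1 := by
        have : z ^ orderOf v * c = 1 * c := by rw [← h3, one_mul]
        exact mul_right_cancel this
      have h5 : z = 1 := by
        have h6 : orderOf z ∣ Nat.gcd p (orderOf v) :=
          Nat.dvd_gcd (orderOf_dvd_of_pow_eq_one hzp) (orderOf_dvd_of_pow_eq_one h4)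
        rw [(Nat.Prime.coprime_iff_not_dvd hp).2 hv, Nat.dvd_one, orderOf_eq_one_iff] at h6
        exact h6
      have h6 : v * c = z * c * v := by rw [hz]; group
      rw [h6, h5, one_mul]
  intro c hcP
  have : Fact p.Prime := ⟨hp⟩
  obtain ⟨k, hk⟩ := hP ⟨c, hcP⟩
  exact key k c hcP (by simpa using congrArg Subtype.val hk)

/-- a subgroup closed under a power prime to the order of the element -/
theorem mem_of_pow_cop [Finite G] {H P : Subgroup G} {c : G} (hc : c ∈ P) {n : ℕ}
    (hn : n.Coprime (Nat.card P)) (h : c ^ n ∈ H) : c ∈ H := by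
  have h1 : orderOf c ∣ Nat.card P := by
    rw [← Subgroup.orderOf_mk c hc]; exact orderOf_dvd_natCard _
  have h2 : (orderOf c).Coprime n := (hn.symm.coprime_dvd_left h1)
  obtain ⟨m, hm⟩ := exists_pow_eq_self_of_coprime h2.symm
  rw [← hm]
  exact H.pow_mem h m

/-- action of a group of coprime order on an abelian group -/
theorem ab_split [Finite G] {P B : Subgroup G} (hab : ∀ a ∈ P, ∀ b ∈ P, a * b = b * a)
    (hBP : B ≤ normalizer (P : Set G)) (hcop : (Nat.card B).Coprime (Nat.card P)) :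
    (∀ c ∈ P, ∃ t ∈ P, (∀ b ∈ B, b * t = t * b) ∧ ∃ d ∈ ⁅P, B⁆, c = t * d) ∧
      (∀ c ∈ ⁅P, B⁆, (∀ b ∈ B, b * c = c * b) → c = 1) := by
  classical
  let inst : CommGroup P := { (inferInstance : Group P) with
    mul_comm := fun x y => Subtype.ext (hab x x.2 y y.2) }
  have := Fintype.ofFinite B
  have hmem : ∀ (b : B) (c : P), (b : G) * c * (b : G)⁻¹ ∈ P := fun b c =>
    (mem_normalizer_iff.1 (hBP b.2) c).1 c.2
  let φ : B → P →* P := fun b =>
    { toFun := fun c => ⟨(b : G) * c * (b : G)⁻¹, hmem b c⟩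
      map_one' := Subtype.ext (by show (b : G) * ((1 : P) : G) * (b : G)⁻¹ = ((1 : P) : G); simp)
      map_mul' := fun x y => Subtype.ext (by
        show (b : G) * ((x * y : P) : G) * (b : G)⁻¹ =
          ((b : G) * x * (b : G)⁻¹) * ((b : G) * y * (b : G)⁻¹)
        have : ((x * y : P) : G) = x * y := rfl
        rw [this]; group) }
  have hφ : ∀ (b : B) (c : P), ((φ b c : P) : G) = (b : G) * c * (b : G)⁻¹ := fun _ _ => rfl
  have hφφ : ∀ (a b : B) (c : P), φ a (φ b c) = φ (a * b) c := fun a b c => Subtype.ext (by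
    rw [hφ, hφ, hφ, Subgroup.coe_mul]; group)
  let T : P →* P :=
    { toFun := fun c => ∏ b : B, φ b c
      map_one' := by simp
      map_mul' := fun x y => by
        rw [← Finset.prod_mul_distrib]
        exact Finset.prod_congr rfl fun b _ => map_mul (φ b) x y }
  have hT : ∀ c, T c = ∏ b : B, φ b c := fun _ => rfl
  have hT1 : ∀ (a : B) (c : P), φ a (T c) = T c := by
    intro a c
    rw [hT, map_prod]
    exact Fintype.prod_equiv (Equiv.mulLeft a) _ _ fun b => hφφ a b c
  have hT2 : ∀ (a : B) (c : P), T (φ a c) = T c := by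
    intro a c
    rw [hT, hT]
    exact Fintype.prod_equiv (Equiv.mulRight a) _ _ fun b => hφφ b a c
  have hcT : ∀ c : P, ∀ b ∈ B, b * (T c : G) = (T c : G) * b := by
    intro c b hb
    have := congrArg Subtype.val (hT1 ⟨b, hb⟩ c)
    rw [hφ] at this
    rw [← mul_inv_eq_iff_eq_mul]; exact this
  have hT3 : ∀ c : P, ∃ d ∈ ⁅P, B⁆, (c : G) ^ Nat.card B = (T c : G) * d := by
    intro c
    have h1 : T c * (c ^ Nat.card B)⁻¹ = ∏ b : B, (φ b c * c⁻¹) := by
      rw [Finset.prod_mul_distrib, hT, Finset.prod_const, Finset.card_univ,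
        ← Nat.card_eq_fintype_card, inv_pow]
    have h2 : ((∏ b : B, (φ b c * c⁻¹) : P) : G) ∈ ⁅P, B⁆ := by
      have h3 : ∀ b : B, φ b c * c⁻¹ ∈ (⁅P, B⁆).subgroupOf P := by
        intro b
        rw [mem_subgroupOf, commutator_comm]
        exact commutator_mem_commutator b.2 c.2
      exact mem_subgroupOf.1 (Subgroup.prod_mem _ fun b _ => h3 b)
    rw [← h1] at h2
    refine ⟨_, (⁅P, B⁆).inv_mem h2, ?_⟩
    have h4 : ((T c * (c ^ Nat.card B)⁻¹ : P) : G) = (T c : G) * ((c : G) ^ Nat.card B)⁻¹ := rfl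
    rw [h4, mul_inv_rev, inv_inv]
    have h5 := hab _ (T c).2 _ (P.pow_mem c.2 (Nat.card B))
    rw [← mul_assoc, h5]; group
  refine ⟨fun c hc => ?_, fun c hc hcB => ?_⟩
  · -- the set of products is a subgroup
    let H : Subgroup G :=
      { carrier := {c | c ∈ P ∧ ∃ t ∈ P, (∀ b ∈ B, b * t = t * b) ∧ ∃ d ∈ ⁅P, B⁆, c = t * d}
        one_mem' := ⟨P.one_mem, 1, P.one_mem, fun b _ => by rw [mul_one, one_mul], 1,
          one_mem _, by rw [one_mul]⟩
        mul_mem' := by
          rintro x y ⟨hx, t, ht, htB, d, hd, rfl⟩ ⟨hy, s, hs, hsB, e, he, rfl⟩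
          have hdP : d ∈ P := comm_le hBP hd
          refine ⟨P.mul_mem hx hy, t * s, P.mul_mem ht hs, fun b hb => ?_, d * e,
            mul_mem hd he, ?_⟩
          · rw [← mul_assoc, htB b hb, mul_assoc, hsB b hb, mul_assoc]
          · have := hab d hdP s hs
            calc t * d * (s * e) = t * (d * s) * e := by group
              _ = t * s * (d * e) := by rw [this]; group
        inv_mem' := by
          rintro x ⟨hx, t, ht, htB, d, hd, rfl⟩
          have hdP : d ∈ P := comm_le hBP hd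
          refine ⟨P.inv_mem hx, t⁻¹, P.inv_mem ht, fun b hb => ?_, d⁻¹, inv_mem hd, ?_⟩
          · have h1 := htB b hb
            rw [mul_inv_eq_iff_eq_mul, mul_assoc, h1]; group
          · rw [mul_inv_rev]
            exact hab _ (P.inv_mem hdP) _ (P.inv_mem ht) }
    have hH : c ∈ H := by
      apply mem_of_pow_cop hc hcop
      obtain ⟨d, hd, hcd⟩ := hT3 ⟨c, hc⟩
      exact ⟨P.pow_mem hc _, T ⟨c, hc⟩, (T ⟨c, hc⟩).2, hcT _, d, hd, hcd⟩
    exact hH.2
  · have hcP : c ∈ P := comm_le hBP hc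
    have h1 : ∀ d ∈ ⁅P, B⁆, ∀ hd : d ∈ P, T ⟨d, hd⟩ = 1 := by
      have hle : ⁅P, B⁆ ≤ (T.ker).map P.subtype := by
        rw [commutator_le]
        intro x hx b hb
        have h2 : x * (b * x⁻¹ * b⁻¹) ∈ P := P.mul_mem hx (hmem ⟨b, hb⟩ ⟨x⁻¹, P.inv_mem hx⟩)
        refine ⟨⟨x * (b * x⁻¹ * b⁻¹), h2⟩, ?_, ?_⟩
        · rw [SetLike.mem_coe, MonoidHom.mem_ker]
          have h3 : (⟨x * (b * x⁻¹ * b⁻¹), h2⟩ : P) = ⟨x, hx⟩ * φ ⟨b, hb⟩ (⟨x, hx⟩ : P)⁻¹ := rfl
          rw [h3, map_mul, hT2, ← map_mul, mul_inv_cancel, map_one]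
        · show x * (b * x⁻¹ * b⁻¹) = ⁅x, b⁆
          rw [commutatorElement_def]; group
      intro d hd hdP
      obtain ⟨e, he, hed⟩ := hle hd
      have : (⟨d, hdP⟩ : P) = e := Subtype.ext hed.symm
      rw [this]; exact he
    have h2 : T ⟨c, hcP⟩ = ⟨c, hcP⟩ ^ Nat.card B := by
      rw [hT]
      have h3 : ∀ b : B, φ b ⟨c, hcP⟩ = ⟨c, hcP⟩ := fun b => Subtype.ext (by
        rw [hφ]
        show (b : G) * c * (b : G)⁻¹ = c
        rw [hcB b b.2]; group)
      rw [Finset.prod_congr rfl fun b _ => h3 b, Finset.prod_const, Finset.card_univ,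
        ← Nat.card_eq_fintype_card]
    rw [h1 c hc hcP] at h2
    have h3 : c ^ Nat.card B = 1 := (congrArg Subtype.val h2).symm
    have h4 : c ∈ (⊥ : Subgroup G) := mem_of_pow_cop hcP hcop (by rw [h3]; exact one_mem _)
    exact mem_bot.1 h4

end Pool.Agent.H3.FT
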