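import Pool.Agent.H3.FT.Cop2

/-!
Coprime action, third part: a noncyclic abelian `p` group acting on a nilpotent `p'` group `O`:
`O` is generated by the centralisers of the elements of order `p`.
-/

namespace Pool.Agent.H3.FT

open Subgroup
open scoped commutatorElement

/-- a sum over residues -/
theorem sum_mul_res {R : Type*} [AddCommMonoid R] {p : ℕ} (hp : p.Prime) (f : ℕ → R)
    (hf : ∀ n, f (n % p) = f n) {j : ℕ} (hj : ¬ p ∣ j) :
    ∑ i ∈ Finset.range p, f (i * j) = ∑ i ∈ Finset.range p, f i := by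
  have : Fact p.Prime := ⟨hp⟩
  have h1 : ∀ g : ℕ → R, ∑ i ∈ Finset.range p, g i = ∑ a : ZMod p, g a.val := by
    intro g
    have : NeZero p := ⟨hp.ne_zero⟩
    refine Finset.sum_nbij' (fun i => (i : ZMod p)) (fun a => a.val) ?_ ?_ ?_ ?_ ?_
    · intro i _; exact Finset.mem_univ _
    · intro a _; exact Finset.mem_range.2 (ZMod.val_lt a)
    · intro i hi; exact ZMod.val_cast_of_lt (Finset.mem_range.1 hi)
    · intro a _; exact ZMod.natCast_zmod_val a
    · intro i hi; rw [ZMod.val_cast_of_lt (Finset.mem_range.1 hi)]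
  rw [h1, h1]
  have hj0 : (j : ZMod p) ≠ 0 := by
    rw [Ne, ZMod.natCast_eq_zero_iff]; exact hj
  refine Fintype.sum_equiv (Equiv.mulRight₀ (j : ZMod p) hj0) _ _ fun a => ?_
  show f (a.val * j) = f (a * j : ZMod p).val
  rw [← hf, ZMod.val_mul, ZMod.val_natCast]
  congr 1
  rw [Nat.mul_mod_mod]

/-- the identity behind the generation theorem -/
theorem gen_id {R : Type*} [Ring R] {p : ℕ} (hp : p.Prime) {x y : R} (hx : x ^ p = 1)
    (hxy : Commute x y) :
    ∑ i ∈ Finset.range p, ∑ j ∈ Finset.range p, (x ^ i * y) ^ j =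
      (p : R) + ∑ j ∈ Finset.range (p - 1), y ^ (j + 1) * ∑ i ∈ Finset.range p, x ^ i := by
  have hmod : ∀ n, x ^ (n % p) = x ^ n := fun n => by
    conv_rhs => rw [← Nat.div_add_mod n p, pow_add, pow_mul, hx, one_pow, one_mul]
  rw [Finset.sum_comm]
  have hp1 : p = (p - 1) + 1 := (Nat.succ_pred_eq_of_pos hp.pos).symm
  have h1 : ∀ j, ∑ i ∈ Finset.range p, (x ^ i * y) ^ j =
      (∑ i ∈ Finset.range p, x ^ (i * j)) * y ^ j := by
    intro j
    rw [Finset.sum_mul]
    refine Finset.sum_congr rfl fun i _ => ?_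
    rw [((hxy.pow_left i)).mul_pow, pow_mul]
  simp only [h1]
  conv_lhs => rw [hp1, Finset.sum_range_succ']
  rw [← hp1]
  simp only [mul_zero, pow_zero, Finset.sum_const, Finset.card_range, nsmul_eq_mul, mul_one]
  rw [add_comm]
  congr 1
  refine Finset.sum_congr rfl fun j hj => ?_
  have hj1 : ¬ p ∣ j + 1 := by
    intro h
    have := Nat.le_of_dvd (Nat.succ_pos j) h
    have h2 := Finset.mem_range.1 hj
    omega
  rw [sum_mul_res hp (fun n => x ^ n) hmod hj1]
  have : Commute (∑ i ∈ Finset.range p, x ^ i) (y ^ (j + 1)) :=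
    (Commute.sum_left _ _ _ fun i _ => (hxy.pow_left i).pow_right _)
  exact this.eq

variable {G : Type*} [Group G]

/-- in a finite nilpotent group a subgroup which together with the commutator subgroup generates
the group is the whole group -/
theorem top_of_sup_comm {O : Type*} [Group O] [Finite O] (hO : Group.IsNilpotent O)
    {K : Subgroup O} (h : K ⊔ commutator O = ⊤) : K = ⊤ := by
  by_contra hK
  obtain ⟨H, hH, hKH⟩ := (eq_top_or_exists_le_coatom K).resolve_left hK
  have hN : H.Normal := by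
    have := (Group.isNilpotent_of_finite_tfae (G := O)).out 0 2
    exact this.1 hO H hH
  have hcomm : commutator O ≤ H := by
    have hsimp : IsSimpleGroup (O ⧸ H) := by
      have : Nontrivial (O ⧸ H) := QuotientGroup.nontrivial_iff.2 hH.1
      refine ⟨fun M _ => ?_⟩
      by_cases hM : M = ⊥
      · exact Or.inl hM
      · right
        have h1 : H ≤ M.comap (QuotientGroup.mk' H) := by
          intro x hx
          rw [mem_comap]
          have : QuotientGroup.mk' H x = 1 := (QuotientGroup.eq_one_iff x).2 hx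
          rw [this]; exact one_mem _
        have h2 : M.comap (QuotientGroup.mk' H) = ⊤ := by
          apply hH.2
          refine lt_of_le_of_ne h1 fun h3 => hM ?_
          rw [eq_bot_iff]
          intro y hy
          obtain ⟨x, rfl⟩ := QuotientGroup.mk'_surjective H y
          have : x ∈ M.comap (QuotientGroup.mk' H) := hy
          rw [← h3] at this
          rw [mem_bot]
          exact (QuotientGroup.eq_one_iff x).2 this
        rw [eq_top_iff]
        intro y _
        obtain ⟨x, rfl⟩ := QuotientGroup.mk'_surjective H y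
        have : x ∈ M.comap (QuotientGroup.mk' H) := by rw [h2]; trivial
        exact this
    have hsol : Group.IsSolvable (O ⧸ H) := inferInstance
    have hc := (IsSimpleGroup.comm_iff_isSolvable (G := O ⧸ H)).2 hsol
    rw [commutator_def, commutator_le]
    intro a _ b _
    rw [← QuotientGroup.eq_one_iff]
    have : ((⁅a, b⁆ : O) : O ⧸ H) = ⁅(a : O ⧸ H), (b : O ⧸ H)⁆ := rfl
    rw [this, commutatorElement_eq_one_iff_mul_comm]
    exact hc _ _
  have : (⊤ : Subgroup O) ≤ H := by rw [← h]; exact sup_le hKH hcomm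
  exact hH.1 (top_le_iff.1 this)

/-- conjugation by an element of the normaliser -/
def cj (O : Subgroup G) (g : normalizer (O : Set G)) : O →* O where
  toFun c := ⟨(g : G) * c * (g : G)⁻¹, (mem_normalizer_iff.1 g.2 c).1 c.2⟩
  map_one' := Subtype.ext (by simp)
  map_mul' x y := Subtype.ext (by
    show (g : G) * ((x * y : O) : G) * (g : G)⁻¹ =
      ((g : G) * x * (g : G)⁻¹) * ((g : G) * y * (g : G)⁻¹)
    rw [Subgroup.coe_mul]; group)

theorem coe_cj (O : Subgroup G) (g : normalizer (O : Set G)) (c : O) :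
    ((cj O g c : O) : G) = (g : G) * c * (g : G)⁻¹ := rfl

/-- the action of the normaliser on the commutator factor group -/
def cjA (O : Subgroup G) : normalizer (O : Set G) →* AddMonoid.End (Additive (Abelianization O)) where
  toFun g := MonoidHom.toAdditive (Abelianization.map (cj O g))
  map_one' := by
    have : cj O 1 = MonoidHom.id O := by
      ext c
      rw [coe_cj]; simp
    rw [this, Abelianization.map_id]; rfl
  map_mul' g h := by
    have : cj O (g * h) = (cj O g).comp (cj O h) := by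
      ext c
      rw [MonoidHom.comp_apply, coe_cj, coe_cj, coe_cj, Subgroup.coe_mul]; group
    rw [this, ← Abelianization.map_comp]; rfl

theorem cjA_of (O : Subgroup G) (g : normalizer (O : Set G)) (c : O) :
    cjA O g (Additive.ofMul (Abelianization.of c)) =
      Additive.ofMul (Abelianization.of (cj O g c)) := rfl

/-- fixed points lift -/
theorem lift_fixed [Finite G] {p : ℕ} (hp : p.Prime) {O : Subgroup G} (hpO : ¬ p ∣ Nat.card O)
    {a : G} (ha : a ^ p = 1) (haO : a ∈ normalizer (O : Set G)) {w : Additive (Abelianization O)}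
    (hw : cjA O ⟨a, haO⟩ w = w) :
    ∃ c : O, (c : G) * a = a * c ∧ Additive.ofMul (Abelianization.of c) = w := by
  obtain ⟨r, hr⟩ := QuotientGroup.mk_surjective (Additive.toMul w)
  have hr1 : Additive.ofMul (Abelianization.of r) = w := hr
  rw [← hr1, cjA_of] at hw
  have hw1 : Abelianization.of (cj O ⟨a, haO⟩ r) = Abelianization.of r := hw
  have hNO : ⁅O, O⁆ ≤ O := commutator_le_self O
  have haN : zpowers a ≤ normalizer ((⁅O, O⁆ : Subgroup G) : Set G) := by
    rw [zpowers_le, mem_normalizer_iff_map_conj_eq, map_commutator]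
    rw [mem_normalizer_iff_map_conj_eq.1 haO]
  have key : ∀ b ∈ zpowers a, ⁅(r : G)⁻¹, b⁆ ∈ ⁅O, O⁆ := by
    -- the elements acting trivially on the coset form a subgroup
    have h1 : ⁅(r : G)⁻¹, a⁆ ∈ ⁅O, O⁆ := by
      have h2 : (r⁻¹ * cj O ⟨a, haO⟩ r) ∈ commutator O := by
        rw [← Abelianization.ker_of, MonoidHom.mem_ker, map_mul, hw1, map_inv, inv_mul_cancel]
      have h3 : ((r⁻¹ * cj O ⟨a, haO⟩ r : O) : G) ∈ (commutator O).map O.subtype := ⟨_, h2, rfl⟩
      rw [map_subtype_commutator] at h3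
      rw [commutatorElement_def, inv_inv]
      have h4 : ((r⁻¹ * cj O ⟨a, haO⟩ r : O) : G) = (r : G)⁻¹ * a * r * a⁻¹ := by
        show (r : G)⁻¹ * (a * r * a⁻¹) = _
        group
      rw [← h4]; exact h3
    intro b hb
    let C : Subgroup G :=
      { carrier := {b | b ∈ zpowers a ∧ ⁅(r : G)⁻¹, b⁆ ∈ ⁅O, O⁆}
        one_mem' := ⟨one_mem _, by rw [commutatorElement_one_right]; exact one_mem _⟩
        mul_mem' := fun {c d} hc hd => ⟨mul_mem hc.1 hd.1, by
          rw [commutatorElement_mul_right_eq_mul_conj]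
          have h2 := (mem_normalizer_iff.1 (haN hc.1) _).1 hd.2
          have h3 := mul_mem hc.2 h2
          simpa [mul_assoc] using h3⟩
        inv_mem' := fun {c} hc => ⟨inv_mem hc.1, by
          rw [commutatorElement_inv_right, ← commutatorElement_inv]
          have h2 := (mem_normalizer_iff.1 (haN (inv_mem hc.1)) _).1 (inv_mem hc.2)
          simpa using h2⟩ }
    have : zpowers a ≤ C := zpowers_le.2 ⟨mem_zpowers a, h1⟩
    exact (this hb).2
  obtain ⟨c, hc, hca, d, hd, hrc⟩ := cop_fix_mem hp (A := zpowers a) (N := ⁅O, O⁆) (R := O)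
    (zpowers_pgroup (k := 1) (by rw [pow_one]; exact ha)) haN (not_dvd_of_le hNO hpO) hNO r.2 key
  refine ⟨⟨c, hc⟩, (hca a (mem_zpowers a)).symm, ?_⟩
  rw [← hr1]
  congr 1
  have h5 : r = ⟨c, hc⟩ * ⟨d, hNO hd⟩ := Subtype.ext hrc
  have h6 : Abelianization.of (⟨d, hNO hd⟩ : O) = 1 := by
    rw [← MonoidHom.mem_ker, Abelianization.ker_of]
    have h7 : d ∈ (commutator O).map O.subtype := by rw [map_subtype_commutator]; exact hd
    obtain ⟨e, he, hed⟩ := h7
    have : (⟨d, hNO hd⟩ : O) = e := Subtype.ext hed.symm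
    rw [this]; exact he
  rw [h5, map_mul, h6, mul_one]

/-- a noncyclic group of exponent `p` acting on a nilpotent group of order prime to `p`: the
centralisers of `x` and of the elements `x ^ i y` generate -/
theorem gen_cent [Finite G] {p : ℕ} (hp : p.Prime) {x y : G} (hx : x ^ p = 1) (hy : y ^ p = 1)
    (hxy : x * y = y * x) {O : Subgroup G} (hO : Group.IsNilpotent O) (hpO : ¬ p ∣ Nat.card O)
    (hxO : x ∈ normalizer (O : Set G)) (hyO : y ∈ normalizer (O : Set G)) {S : Subgroup G}
    (h1 : ∀ c ∈ O, c * x = x * c → c ∈ S)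
    (h2 : ∀ i : ℕ, ∀ c ∈ O, c * (x ^ i * y) = (x ^ i * y) * c → c ∈ S) : O ≤ S := by
  have hxi : ∀ i : ℕ, x ^ i * y ∈ normalizer (O : Set G) := fun i =>
    mul_mem (pow_mem hxO i) hyO
  have hxip : ∀ i : ℕ, (x ^ i * y) ^ p = 1 := fun i => by
    rw [((show Commute x y from hxy).pow_left i).mul_pow, ← pow_mul, mul_comm i p, pow_mul, hx,
      one_pow, one_mul, hy]
  set V := Additive (Abelianization O) with hV
  -- image of `S`
  let f : O →* Abelianization O := Abelianization.of
  let SV : AddSubgroup V := Subgroup.toAddSubgroup ((S.subgroupOf O).map f)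
  have hSV : ∀ c : O, (c : G) ∈ S → (Additive.ofMul (Abelianization.of c) : V) ∈ SV := fun c hc =>
    ⟨c, mem_subgroupOf.2 hc, rfl⟩
  let X : AddMonoid.End V := cjA O ⟨x, hxO⟩
  let Y : AddMonoid.End V := cjA O ⟨y, hyO⟩
  have hXY : Commute X Y := by
    show cjA O ⟨x, hxO⟩ * cjA O ⟨y, hyO⟩ = cjA O ⟨y, hyO⟩ * cjA O ⟨x, hxO⟩
    rw [← map_mul, ← map_mul]
    congr 1
    exact Subtype.ext hxy
  have hX : X ^ p = 1 := by
    show (cjA O ⟨x, hxO⟩) ^ p = 1
    rw [← map_pow]
    have : (⟨x, hxO⟩ : normalizer (O : Set G)) ^ p = 1 := Subtype.ext (by simpa using hx)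
    rw [this, map_one]
  have hXiY : ∀ i : ℕ, X ^ i * Y = cjA O ⟨x ^ i * y, hxi i⟩ := by
    intro i
    show (cjA O ⟨x, hxO⟩) ^ i * cjA O ⟨y, hyO⟩ = _
    rw [← map_pow, ← map_mul]
    congr 1
  have hid := gen_id hp hX hXY
  -- fixed points are in `SV`
  have hf1 : ∀ w : V, X w = w → w ∈ SV := by
    intro w hw
    obtain ⟨c, hc, rfl⟩ := lift_fixed hp hpO hx hxO hw
    exact hSV c (h1 c c.2 hc)
  have hf2 : ∀ (i : ℕ) (w : V), (X ^ i * Y) w = w → w ∈ SV := by
    intro i w hw
    rw [hXiY] at hw
    obtain ⟨c, hc, rfl⟩ := lift_fixed hp hpO (hxip i) (hxi i) hw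
    exact hSV c (h2 i c c.2 hc)
  -- geometric sums
  have hgeo : ∀ Z : AddMonoid.End V, Z ^ p = 1 →
      Z * ∑ j ∈ Finset.range p, Z ^ j = ∑ j ∈ Finset.range p, Z ^ j := by
    intro Z hZ
    rw [Finset.mul_sum]
    have h3 : ∀ j, Z * Z ^ j = Z ^ (j + 1) := fun j => (pow_succ' Z j).symm
    simp only [h3]
    have h4 := Finset.sum_range_succ (fun j => Z ^ j) p
    have h5 := Finset.sum_range_succ' (fun j => Z ^ j) p
    rw [h4, hZ, pow_zero] at h5
    exact (add_right_cancel h5).symm
  have hpV : ∀ v : V, (p : ℕ) • v ∈ SV := by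
    intro v
    have h3 := congrArg (fun T : AddMonoid.End V => T v) hid
    have h4 : (p : ℕ) • v = (∑ i ∈ Finset.range p, ∑ j ∈ Finset.range p, (X ^ i * Y) ^ j) v -
        (∑ j ∈ Finset.range (p - 1), Y ^ (j + 1) * ∑ i ∈ Finset.range p, X ^ i) v := by
      have h5 : ((p : AddMonoid.End V)) v = (p : ℕ) • v := by
        simp
      rw [eq_sub_iff_add_eq, ← h5]
      exact h3.symm
    rw [h4]
    apply SV.sub_mem
    · have hsum : ∀ (s : Finset ℕ) (F : ℕ → AddMonoid.End V), (∀ i, F i v ∈ SV) →
          (∑ i ∈ s, F i) v ∈ SV := by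
        intro s F hF
        induction s using Finset.induction_on with
        | empty =>
          rw [Finset.sum_empty]
          exact SV.zero_mem
        | insert a s ha ih =>
          rw [Finset.sum_insert ha]
          exact SV.add_mem (hF a) ih
      refine hsum _ _ fun i => ?_
      apply hf2 i
      have h6 : (X ^ i * Y) ^ p = 1 := by
        rw [hXiY, ← map_pow]
        have : (⟨x ^ i * y, hxi i⟩ : normalizer (O : Set G)) ^ p = 1 :=
          Subtype.ext (by simpa using hxip i)
        rw [this, map_one]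
      have h7 := hgeo _ h6
      exact congrArg (fun T : AddMonoid.End V => T v) h7
    · apply hf1
      have h8 : X * (∑ j ∈ Finset.range (p - 1), Y ^ (j + 1) * ∑ i ∈ Finset.range p, X ^ i) =
          ∑ j ∈ Finset.range (p - 1), Y ^ (j + 1) * ∑ i ∈ Finset.range p, X ^ i := by
        rw [Finset.mul_sum]
        refine Finset.sum_congr rfl fun j _ => ?_
        rw [← mul_assoc, (hXY.pow_right (j + 1)).eq, mul_assoc, hgeo X hX]
      exact congrArg (fun T : AddMonoid.End V => T v) h8
  -- so the image of `S` is everything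
  have hfinV : Finite V := inferInstanceAs (Finite (O ⧸ commutator O))
  have hcop : (Nat.card V).Coprime p := by
    have h3 : Nat.card V ∣ Nat.card O := (commutator O).card_quotient_dvd_card
    exact ((Nat.Prime.coprime_iff_not_dvd hp).2 fun h => hpO (h.trans h3)).symm
  have htop : ∀ v : V, v ∈ SV := by
    intro v
    have h3 : (addOrderOf v).Coprime p := hcop.coprime_dvd_left (addOrderOf_dvd_natCard v)
    obtain ⟨m, hm⟩ := exists_nsmul_eq_self_of_coprime h3.symm
    rw [← hm]
    exact SV.nsmul_mem (hpV v) m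
  have hsup : S.subgroupOf O ⊔ commutator O = ⊤ := by
    rw [eq_top_iff]
    intro c _
    obtain ⟨s, hs, hsc⟩ := htop (Additive.ofMul (Abelianization.of c))
    have h3 : Abelianization.of s = Abelianization.of c := hsc
    have h4 : s⁻¹ * c ∈ commutator O := by
      rw [← Abelianization.ker_of, MonoidHom.mem_ker, map_mul, map_inv, h3, inv_mul_cancel]
    have h5 : c = s * (s⁻¹ * c) := by group
    rw [h5]
    exact mul_mem_sup hs h4
  have := top_of_sup_comm hO hsup
  rw [subgroupOf_eq_top] at this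
  exact this

end Pool.Agent.H3.FT
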