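import Mathlib

/-!
Hypotheses on finite groups used in the local analysis: `Rk r G` (every `p` subgroup is generated
by at most `r` elements) and `Big n G` (all prime divisors of the order are larger than `n`).
-/

namespace Pool.Agent.H3.FT

/-- every `p` subgroup of `G` is generated by at most `r` elements, for every prime `p` -/
def Rk (r : ℕ) (G : Type*) [Group G] : Prop :=
  ∀ p : ℕ, p.Prime → ∀ K : Subgroup G, IsPGroup p K →
    ∃ S : Finset G, S.card ≤ r ∧ Subgroup.closure (S : Set G) = K

/-- every prime divisor of the order of `G` is larger than `n` -/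
def Big (n : ℕ) (G : Type*) [Group G] : Prop :=
  ∀ p : ℕ, p.Prime → p ∣ Nat.card G → n < p

variable {G : Type*} [Group G]

/-- inside a subgroup -/
theorem exists_gen_sub {K : Subgroup G} {S : Finset G} (hS : Subgroup.closure (S : Set G) = K) :
    ∃ T : Finset K, T.card ≤ S.card ∧ Subgroup.closure (T : Set K) = ⊤ := by
  classical
  subst hS
  obtain ⟨T, hT, hT2⟩ := Group.rank_spec (Subgroup.closure (S : Set G))
  exact ⟨T, by rw [hT]; exact Subgroup.rank_closure_finset_le_card S, hT2⟩

/-- the images of generators generate the image -/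
theorem closure_image {H : Type*} [Group H] [DecidableEq H] (f : G →* H) (S : Finset G) :
    Subgroup.closure ((S.image f : Finset H) : Set H) = (Subgroup.closure (S : Set G)).map f := by
  rw [Finset.coe_image, MonoidHom.map_closure]

theorem Rk.sub {r : ℕ} (h : Rk r G) (H : Subgroup G) : Rk r H := by
  classical
  intro p hp K hK
  obtain ⟨S, hS, hSK⟩ := h p hp (K.map H.subtype) (hK.map H.subtype)
  obtain ⟨T, hT, hT2⟩ := exists_gen_sub hSK
  have hinj : Function.Injective H.subtype := H.subtype_injective
  let e : K ≃* K.map H.subtype := K.equivMapOfInjective H.subtype hinj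
  refine ⟨T.image fun t => ((e.symm t : K) : H), Finset.card_image_le.trans (hT.trans hS), ?_⟩
  have h1 : ((T.image fun t => ((e.symm t : K) : H) : Finset H) : Set H) =
      (T.image (K.subtype.comp e.symm.toMonoidHom) : Finset H) := by
    congr 1
  rw [h1, closure_image, hT2, ← Subgroup.map_map, Subgroup.map_top_of_surjective _
    (e.symm.surjective : Function.Surjective e.symm.toMonoidHom), ← MonoidHom.range_eq_map,
    Subgroup.range_subtype]

theorem Big.sub {n : ℕ} (h : Big n G) [Finite G] (H : Subgroup G) : Big n H :=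
  fun p hp hd => h p hp (hd.trans H.card_subgroup_dvd_card)

theorem Big.quot {n : ℕ} (h : Big n G) [Finite G] (N : Subgroup G) [N.Normal] : Big n (G ⧸ N) :=
  fun p hp hd => h p hp (hd.trans N.card_quotient_dvd_card)

theorem Rk.surj {r : ℕ} [Finite G] (h : Rk r G) {Q : Type*} [Group Q] (f : G →* Q)
    (hf : Function.Surjective f) : Rk r Q := by
  classical
  intro p hp K hK
  have : Fact p.Prime := ⟨hp⟩
  have : Finite Q := Finite.of_surjective f hf
  -- a Sylow subgroup of the preimage maps onto `K`
  set H : Subgroup G := K.comap f with hH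
  obtain ⟨P⟩ := (inferInstance : Nonempty (Sylow p H))
  let g : H →* K := f.subgroupComap K
  have hg : Function.Surjective g := by
    rintro ⟨k, hk⟩
    obtain ⟨x, rfl⟩ := hf k
    exact ⟨⟨x, hk⟩, rfl⟩
  have hPt : (P : Subgroup H).map g = ⊤ := by
    have h1 : ¬ p ∣ ((P : Subgroup H).map g).index := by
      intro hd
      have h2 : ((P : Subgroup H).map g).index ∣ (P : Subgroup H).index :=
        Subgroup.index_map_dvd _ hg
      exact P.not_dvd_index (hd.trans h2)
    have h2 : ∃ k, ((P : Subgroup H).map g).index = p ^ k := hK.index _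
    obtain ⟨k, hk⟩ := h2
    rw [← Subgroup.index_eq_one, hk]
    rcases Nat.eq_zero_or_pos k with rfl | hk0
    · simp
    · exact absurd (by rw [hk]; exact dvd_pow_self p hk0.ne') h1
  obtain ⟨S, hS, hSK⟩ := h p hp ((P : Subgroup H).map H.subtype) (P.isPGroup'.map _)
  refine ⟨S.image f, Finset.card_image_le.trans hS, ?_⟩
  rw [closure_image, hSK, Subgroup.map_map]
  have h3 : f.comp H.subtype = K.subtype.comp g := by ext x; rfl
  rw [h3, ← Subgroup.map_map, hPt, ← MonoidHom.range_eq_map, Subgroup.range_subtype]

theorem Rk.quot {r : ℕ} [Finite G] (h : Rk r G) (N : Subgroup G) [N.Normal] : Rk r (G ⧸ N) :=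
  h.surj (QuotientGroup.mk' N) (QuotientGroup.mk'_surjective N)

end Pool.Agent.H3.FT
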