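import Pool.Agent.H3.FT.Lin

/-!
A finite soluble group acting on a nonzero finite dimensional space over any field, all prime
divisors of the order larger than the dimension: the commutator subgroup fixes a nonzero vector.
-/

namespace Pool.Agent.H3.FT

open Module TensorProduct
open scoped commutatorElement

/-- a nonzero finite dimensional representation contains an irreducible one -/
theorem exists_irr {K W Γ : Type*} [Field K] [AddCommGroup W] [Module K W]
    [FiniteDimensional K W] [Nontrivial W] [Group Γ] (ρ : Γ →* End K W) :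
    ∃ U : Submodule K W, U ≠ ⊥ ∧ (∀ g, ∀ u ∈ U, ρ g u ∈ U) ∧
      ∀ U' : Submodule K W, U' ≤ U → (∀ g, ∀ u ∈ U', ρ g u ∈ U') → U' = ⊥ ∨ U' = U := by
  classical
  have hex : ∃ n, ∃ U : Submodule K W, U ≠ ⊥ ∧ (∀ g, ∀ u ∈ U, ρ g u ∈ U) ∧ finrank K U = n :=
    ⟨_, ⊤, top_ne_bot, fun _ _ _ => Submodule.mem_top, rfl⟩
  obtain ⟨U, hU, hinv, hn⟩ := Nat.find_spec hex
  refine ⟨U, hU, hinv, fun U' hle hinv' => ?_⟩
  by_contra h
  push Not at h
  have hlt : U' < U := lt_of_le_of_ne hle h.2
  have h1 := Submodule.finrank_lt_finrank_of_lt hlt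
  have h2 := Nat.find_min' hex ⟨U', h.1, hinv', rfl⟩
  omega

/-- over an algebraically closed field -/
theorem fix_closed {K W Γ : Type*} [Field K] [IsAlgClosed K] [AddCommGroup W] [Module K W]
    [FiniteDimensional K W] [Nontrivial W] [Group Γ] [Finite Γ] (hsol : Group.IsSolvable Γ)
    (ρ : Γ →* End K W) (hR : ∀ q : ℕ, q.Prime → q ∣ Nat.card Γ → finrank K W < q) :
    ∃ v : W, v ≠ 0 ∧ ∀ x ∈ commutator Γ, ρ x v = v := by
  obtain ⟨U, hU, hinv, hmin⟩ := exists_irr ρ
  have : Nontrivial U := Submodule.nontrivial_iff_ne_bot.2 hU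
  let σ : Γ →* End K U :=
    { toFun := fun g => (ρ g).restrict (hinv g)
      map_one' := by ext w; simp
      map_mul' := fun g h => by ext w; simp }
  have hσ : ∀ (g : Γ) (u : U), ((σ g u : U) : W) = ρ g u := fun g u => rfl
  have hirr : ∀ V : Submodule K U, (∀ g, ∀ u ∈ V, σ g u ∈ V) → V = ⊥ ∨ V = ⊤ := by
    intro V hV
    rcases hmin (V.map U.subtype) (Submodule.map_subtype_le U V) (by
      rintro g _ ⟨u, hu, rfl⟩
      exact ⟨σ g u, hV g u hu, rfl⟩) with h | h
    · left
      rw [Submodule.eq_bot_iff] at h ⊢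
      intro u hu
      exact Subtype.ext (h u ⟨u, hu, rfl⟩)
    · right
      rw [eq_top_iff]
      intro u _
      have : (u : W) ∈ V.map U.subtype := by rw [h]; exact u.2
      obtain ⟨u', hu', he⟩ := this
      rwa [← Subtype.ext he]
  have hle : finrank K U ≤ finrank K W := Submodule.finrank_le U
  have hsc := irr_scalar hsol σ (fun q hq hd => lt_of_le_of_lt hle (hR q hq hd)) hirr
  obtain ⟨u, hu⟩ := exists_ne (0 : U)
  refine ⟨u, fun h => hu (Subtype.ext h), ?_⟩
  have hker : commutator Γ ≤ σ.ker := by
    rw [commutator_def, Subgroup.commutator_le]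
    intro x _ y _
    rw [MonoidHom.mem_ker]
    obtain ⟨c, hc⟩ := hsc x
    obtain ⟨d, hd⟩ := hsc y
    have hxy : σ (x * y) = σ (y * x) := by
      ext w
      rw [map_mul, map_mul, Module.End.mul_apply, Module.End.mul_apply, hd w, map_smul, hc w,
        map_smul, hd, smul_comm]
    have h1 : x * y = ⁅x, y⁆ * (y * x) := by rw [commutatorElement_def]; group
    have h2 : σ (y * x) * σ (y * x)⁻¹ = 1 := by rw [← map_mul, mul_inv_cancel, map_one]
    calc σ ⁅x, y⁆ = σ ⁅x, y⁆ * (σ (y * x) * σ (y * x)⁻¹) := by rw [h2, mul_one]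
      _ = σ (x * y) * σ (y * x)⁻¹ := by rw [← mul_assoc, ← map_mul, ← h1]
      _ = 1 := by rw [hxy, h2]
  intro x hx
  have h1 := hker hx
  rw [MonoidHom.mem_ker] at h1
  rw [← hσ, h1]; rfl

/-- over any field -/
theorem fix_any {k V Γ : Type*} [Field k] [AddCommGroup V] [Module k V]
    [FiniteDimensional k V] [Nontrivial V] [Group Γ] [Finite Γ] (hsol : Group.IsSolvable Γ)
    (ρ : Γ →* End k V) (hR : ∀ q : ℕ, q.Prime → q ∣ Nat.card Γ → finrank k V < q) :
    ∃ v : V, v ≠ 0 ∧ ∀ x ∈ commutator Γ, ρ x v = v := by
  classical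
  let K := AlgebraicClosure k
  let W := K ⊗[k] V
  have hrank : finrank K W = finrank k V := Module.finrank_baseChange
  have : Nontrivial W := by
    have h1 : 0 < finrank K W := by rw [hrank]; exact finrank_pos
    exact Module.nontrivial_of_finrank_pos h1
  let σ : Γ →* End K W :=
    { toFun := fun g => (ρ g).baseChange K
      map_one' := by rw [map_one]; exact LinearMap.baseChange_id
      map_mul' := fun g h => by rw [map_mul]; exact LinearMap.baseChange_mul _ _ }
  obtain ⟨w, hw, hfix⟩ := fix_closed hsol σ (fun q hq hd => by rw [hrank]; exact hR q hq hd)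
  let T : V →ₗ[k] (commutator Γ → V) :=
    LinearMap.pi fun x => ρ x - LinearMap.id
  by_contra hcon
  push Not at hcon
  have hT : Function.Injective T := by
    rw [injective_iff_map_eq_zero]
    intro v hv
    by_contra hv0
    obtain ⟨x, hx, hxv⟩ := hcon v hv0
    apply hxv
    have := congrFun hv ⟨x, hx⟩
    simp only [T, LinearMap.pi_apply, LinearMap.sub_apply, LinearMap.id_apply,
      Pi.zero_apply] at this
    exact sub_eq_zero.1 this
  obtain ⟨S, hS⟩ := T.exists_leftInverse_of_injective (LinearMap.ker_eq_bot.2 hT)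
  -- `S ∘ T = id` so the base change of `T` is injective; but `w` is in its kernel
  have hw0 : T.baseChange K w = 0 := by
    have key : ∀ x : commutator Γ,
        ((LinearMap.proj x : (commutator Γ → V) →ₗ[k] V).baseChange K) (T.baseChange K w) = 0 := by
      intro x
      rw [← LinearMap.comp_apply, ← LinearMap.baseChange_comp]
      have : (LinearMap.proj x : (commutator Γ → V) →ₗ[k] V) ∘ₗ T = ρ x - LinearMap.id := by
        ext v; simp [T]
      rw [this, LinearMap.baseChange_sub, LinearMap.sub_apply, LinearMap.baseChange_id]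
      have := hfix x x.2
      show σ x w - w = 0
      rw [this, sub_self]
    have hpi : ∀ z : K ⊗[k] (commutator Γ → V),
        (∀ x : commutator Γ,
          ((LinearMap.proj x : (commutator Γ → V) →ₗ[k] V).baseChange K) z = 0) → z = 0 := by
      intro z hz
      have hfin : Finite (commutator Γ) := inferInstance
      have := Fintype.ofFinite (commutator Γ)
      have hsum : (LinearMap.id : (commutator Γ → V) →ₗ[k] (commutator Γ → V)) =
          ∑ x : commutator Γ, (LinearMap.single k (fun _ => V) x) ∘ₗ (LinearMap.proj x) := by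
        ext x v y
        simp [Pi.single_apply]
      have hz1 : z = (LinearMap.id : (commutator Γ → V) →ₗ[k] (commutator Γ → V)).baseChange K z := by
        rw [LinearMap.baseChange_id]; rfl
      rw [hz1, hsum]
      have : ∀ s : Finset (commutator Γ),
          (LinearMap.baseChange K (∑ x ∈ s, (LinearMap.single k (fun _ => V) x) ∘ₗ
            (LinearMap.proj x : (commutator Γ → V) →ₗ[k] V))) z = 0 := by
        intro s
        induction s using Finset.induction_on with
        | empty => simp
        | insert a s ha ih =>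
          rw [Finset.sum_insert ha, LinearMap.baseChange_add, LinearMap.add_apply, ih, add_zero,
            LinearMap.baseChange_comp, LinearMap.comp_apply, hz a, map_zero]
      exact this Finset.univ
    exact hpi _ key
  apply hw
  have h1 : (S ∘ₗ T).baseChange K w = 0 := by
    rw [LinearMap.baseChange_comp, LinearMap.comp_apply, hw0, map_zero]
  rw [hS, LinearMap.baseChange_id] at h1
  exact h1

end Pool.Agent.H3.FT
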