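import Mathlib

/-!
Linear actions of finite soluble groups all of whose prime divisors exceed the dimension:
over an algebraically closed field an irreducible one is scalar, over any field the commutator
subgroup has a nonzero fixed vector.
-/

namespace Pool.Agent.H3.FT

open Module
open scoped commutatorElement

/-- a commuting family over an algebraically closed field has a common eigenvector -/
theorem common_eig {K : Type*} [Field K] [IsAlgClosed K] {ι : Type*} :
    ∀ (n : ℕ) (W : Type _) [AddCommGroup W] [Module K W] [FiniteDimensional K W] [Nontrivial W],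
    finrank K W ≤ n → ∀ f : ι → End K W, (∀ i j, Commute (f i) (f j)) →
      ∃ v : W, v ≠ 0 ∧ ∃ χ : ι → K, ∀ i, f i v = χ i • v := by
  intro n
  induction n with
  | zero =>
    intro W _ _ _ _ hn
    have := finrank_pos (R := K) (M := W)
    omega
  | succ n ih =>
    intro W _ _ _ _ hn f hc
    by_cases hs : ∀ i, ∃ c : K, ∀ w : W, f i w = c • w
    · choose χ hχ using hs
      obtain ⟨v, hv⟩ := exists_ne (0 : W)
      exact ⟨v, hv, χ, fun i => hχ i v⟩
    · push Not at hs
      obtain ⟨i, hi⟩ := hs
      obtain ⟨μ, hμ⟩ := Module.End.exists_eigenvalue (f i)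
      set E := (f i).eigenspace μ with hE
      have hEb : E ≠ ⊥ := hμ
      have hEt : E ≠ ⊤ := by
        intro h
        obtain ⟨w, hw⟩ := hi μ
        apply hw
        have : w ∈ E := by rw [h]; trivial
        exact Module.End.mem_eigenspace_iff.1 this
      have hinv : ∀ j, ∀ w ∈ E, f j w ∈ E := by
        intro j w hw
        rw [hE, Module.End.mem_eigenspace_iff] at hw ⊢
        have : f i (f j w) = f j (f i w) := by
          have := (hc i j).eq
          exact congrArg (fun T : End K W => T w) this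
        rw [this, hw, map_smul]
      have : Nontrivial E := Submodule.nontrivial_iff_ne_bot.2 hEb
      have hlt : finrank K E < finrank K W := Submodule.finrank_lt hEt
      obtain ⟨v, hv, χ, hχ⟩ := ih E (by omega) (fun j => (f j).restrict (hinv j)) (by
        intro j k
        ext w
        have := congrArg (fun T : End K W => T (w : W)) (hc j k).eq
        simpa using this)
      refine ⟨v, fun h => hv (Subtype.ext h), χ, fun j => ?_⟩
      have := congrArg Subtype.val (hχ j)
      simpa using this


/-- a normal subgroup acting by commuting operators acts by scalars -/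
theorem normal_scalar {K W Γ : Type*} [Field K] [IsAlgClosed K] [AddCommGroup W] [Module K W]
    [FiniteDimensional K W] [Nontrivial W] [Group Γ] [Finite Γ] (ρ : Γ →* End K W)
    (N : Subgroup Γ) [N.Normal] (hc : ∀ x ∈ N, ∀ y ∈ N, Commute (ρ x) (ρ y))
    (hR : ∀ q : ℕ, q.Prime → q ∣ Nat.card Γ → finrank K W < q)
    (hirr : ∀ U : Submodule K W, (∀ g, ∀ u ∈ U, ρ g u ∈ U) → U = ⊥ ∨ U = ⊤) :
    ∀ x ∈ N, ∃ c : K, ∀ w, ρ x w = c • w := by
  classical
  obtain ⟨v, hv, χ, hχ⟩ := common_eig (K := K) (finrank K W) W le_rfl (fun x : N => ρ x)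
    (fun i j => hc i i.2 j j.2)
  let E : (N → K) → Submodule K W := fun ψ => ⨅ x : N, (ρ x).eigenspace (ψ x)
  have memE : ∀ (ψ : N → K) (w : W), w ∈ E ψ ↔ ∀ x : N, ρ x w = ψ x • w := by
    intro ψ w
    simp only [E, Submodule.mem_iInf, Module.End.mem_eigenspace_iff]
  let _ : MulAction Γ (N → K) :=
    { smul := fun g ψ x => ψ (MulAut.conjNormal g⁻¹ x)
      one_smul := fun ψ => by
        funext x
        show ψ (MulAut.conjNormal (1 : Γ)⁻¹ x) = ψ x
        simp
      mul_smul := fun g h ψ => by
        funext x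
        show ψ (MulAut.conjNormal (g * h)⁻¹ x) =
          ψ (MulAut.conjNormal h⁻¹ (MulAut.conjNormal g⁻¹ x))
        rw [mul_inv_rev, map_mul, MulAut.mul_apply] }
  have smul_def : ∀ (g : Γ) (ψ : N → K) (x : N), (g • ψ) x = ψ (MulAut.conjNormal g⁻¹ x) :=
    fun _ _ _ => rfl
  have hE : ∀ (g : Γ) (ψ : N → K) (w : W), w ∈ E ψ → ρ g w ∈ E (g • ψ) := by
    intro g ψ w hw
    rw [memE] at hw ⊢
    intro x
    have h1 := hw (MulAut.conjNormal g⁻¹ x)
    rw [smul_def]
    have h2 : (x : Γ) * g = g * ((MulAut.conjNormal g⁻¹ x : N) : Γ) := by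
      rw [MulAut.conjNormal_apply]; group
    have h3 : ρ x (ρ g w) = ρ g (ρ ((MulAut.conjNormal g⁻¹ x : N) : Γ) w) := by
      rw [← Module.End.mul_apply, ← Module.End.mul_apply, ← map_mul, ← map_mul, h2]
    rw [h3, h1, map_smul]
  have hind : iSupIndep fun ψ : N → K => ⨅ x : N, (ρ x).maxGenEigenspace (ψ x) := by
    apply Module.End.independent_iInf_maxGenEigenspace_of_forall_mapsTo
    intro i j φ
    exact Module.End.mapsTo_maxGenEigenspace_of_comm (hc j j.2 i i.2) φ
  have hind2 : iSupIndep E := hind.mono fun ψ => iInf_mono fun x => by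
    intro w hw
    exact Module.End.mem_maxGenEigenspace _ _ _ |>.2 ⟨1, by
      rw [Module.End.mem_eigenspace_iff] at hw
      simp [hw]⟩
  have hind3 : iSupIndep fun ψ : MulAction.orbit Γ χ => E ψ := hind2.comp Subtype.val_injective
  have hne : ∀ ψ : MulAction.orbit Γ χ, E ψ ≠ ⊥ := by
    rintro ⟨ψ, g, rfl⟩ h
    have h1 : ρ g v ∈ E (g • χ) := hE g χ v ((memE χ v).2 hχ)
    have h2 : E (g • χ) = ⊥ := h
    rw [h2, Submodule.mem_bot] at h1
    apply hv
    have h3 : ρ g⁻¹ (ρ g v) = v := by
      rw [← Module.End.mul_apply, ← map_mul, inv_mul_cancel, map_one]; rfl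
    rw [← h3, h1, map_zero]
  have hfin : Finite (MulAction.orbit Γ χ) := Set.finite_range _
  have hcard : Nat.card (MulAction.orbit Γ χ) ≤ finrank K W := by
    have := Fintype.ofFinite { ψ : MulAction.orbit Γ χ // E ψ ≠ ⊥ }
    have h1 := hind3.subtype_ne_bot_le_finrank
    have e : { ψ : MulAction.orbit Γ χ // E ψ ≠ ⊥ } ≃ MulAction.orbit Γ χ :=
      Equiv.subtypeUnivEquiv hne
    rw [← Nat.card_eq_fintype_card, Nat.card_congr e] at h1
    exact h1
  have hdvd : Nat.card (MulAction.orbit Γ χ) ∣ Nat.card Γ := by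
    have h1 := MulAction.index_stabilizer Γ χ
    have h2 := (MulAction.stabilizer Γ χ).index_dvd_card
    rw [h1] at h2
    exact h2
  have hone : Nat.card (MulAction.orbit Γ χ) = 1 := by
    by_contra h
    obtain ⟨q, hq, hqd⟩ := Nat.exists_prime_and_dvd h
    have h1 := hR q hq (hqd.trans hdvd)
    have : Nonempty (MulAction.orbit Γ χ) := ⟨⟨χ, MulAction.mem_orbit_self χ⟩⟩
    have h2 : 0 < Nat.card (MulAction.orbit Γ χ) := Nat.card_pos
    have h3 := Nat.le_of_dvd h2 hqd
    omega
  have hfix : ∀ g : Γ, g • χ = χ := by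
    intro g
    have := (Nat.card_eq_one_iff_unique.1 hone).1
    have h1 := this.elim ⟨g • χ, MulAction.mem_orbit χ g⟩ ⟨χ, MulAction.mem_orbit_self χ⟩
    exact congrArg Subtype.val h1
  have htop : E χ = ⊤ := by
    refine (hirr (E χ) ?_).resolve_left ?_
    · intro g u hu
      have := hE g χ u hu
      rwa [hfix] at this
    · exact hne ⟨χ, MulAction.mem_orbit_self χ⟩
  intro x hx
  refine ⟨χ ⟨x, hx⟩, fun w => ?_⟩
  have : w ∈ E χ := by rw [htop]; trivial
  exact (memE χ w).1 this ⟨x, hx⟩

/-- an irreducible representation of a finite soluble group over an algebraically closed field is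
scalar if all prime divisors of the order exceed the dimension -/
theorem irr_scalar {K W Γ : Type*} [Field K] [IsAlgClosed K] [AddCommGroup W] [Module K W]
    [FiniteDimensional K W] [Nontrivial W] [Group Γ] [Finite Γ] (hsol : Group.IsSolvable Γ)
    (ρ : Γ →* End K W)
    (hR : ∀ q : ℕ, q.Prime → q ∣ Nat.card Γ → finrank K W < q)
    (hirr : ∀ U : Submodule K W, (∀ g, ∀ u ∈ U, ρ g u ∈ U) → U = ⊥ ∨ U = ⊤) :
    ∀ x : Γ, ∃ c : K, ∀ w, ρ x w = c • w := by
  classical
  obtain ⟨k, hk⟩ := hsol.solvable
  have key : ∀ i ≤ k, ∀ x ∈ derivedSeries Γ (k - i), ∃ c : K, ∀ w, ρ x w = c • w := by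
    intro i
    induction i with
    | zero =>
      intro _ x hx
      rw [Nat.sub_zero, hk, Subgroup.mem_bot] at hx
      exact ⟨1, fun w => by rw [hx, map_one]; simp⟩
    | succ i ih =>
      intro hi
      have ih := ih (by omega)
      have e : k - i = (k - (i + 1)) + 1 := by omega
      rw [e, derivedSeries_succ] at ih
      apply normal_scalar ρ (derivedSeries Γ (k - (i + 1))) _ hR hirr
      intro x hx y hy
      obtain ⟨c, hc⟩ := ih ⁅x, y⁆ (Subgroup.commutator_mem_commutator hx hy)
      have hc1 : ρ ⁅x, y⁆ = c • (1 : End K W) := by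
        ext w; rw [hc w]; simp
      have hdet : LinearMap.det (ρ ⁅x, y⁆) = 1 := by
        rw [commutatorElement_def, map_mul, map_mul, map_mul, map_mul, map_mul, map_mul]
        have h1 : LinearMap.det (ρ x) * LinearMap.det (ρ x⁻¹) = 1 := by
          rw [← map_mul, ← map_mul, mul_inv_cancel, map_one, map_one]
        have h2 : LinearMap.det (ρ y) * LinearMap.det (ρ y⁻¹) = 1 := by
          rw [← map_mul, ← map_mul, mul_inv_cancel, map_one, map_one]
        calc LinearMap.det (ρ x) * LinearMap.det (ρ y) * LinearMap.det (ρ x⁻¹) *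
              LinearMap.det (ρ y⁻¹)
            = (LinearMap.det (ρ x) * LinearMap.det (ρ x⁻¹)) *
              (LinearMap.det (ρ y) * LinearMap.det (ρ y⁻¹)) := by ring
          _ = 1 := by rw [h1, h2, one_mul]
      have hcd : c ^ finrank K W = 1 := by
        rw [hc1, LinearMap.det_smul, map_one, mul_one] at hdet
        exact hdet
      have hcn : c ^ Nat.card Γ = 1 := by
        have h1 : ρ (⁅x, y⁆ ^ Nat.card Γ) = 1 := by rw [pow_card_eq_one', map_one]
        rw [map_pow, hc1, smul_pow, one_pow] at h1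
        obtain ⟨v, hv⟩ := exists_ne (0 : W)
        have h2 := congrArg (fun T : End K W => T v) h1
        simp only [LinearMap.smul_apply, Module.End.one_apply] at h2
        have h3 : (c ^ Nat.card Γ - 1) • v = 0 := by rw [sub_smul, h2, one_smul, sub_self]
        rcases smul_eq_zero.1 h3 with h4 | h4
        · exact sub_eq_zero.1 h4
        · exact absurd h4 hv
      have hcop : Nat.Coprime (finrank K W) (Nat.card Γ) := by
        rw [Nat.coprime_iff_gcd_eq_one]
        by_contra h
        obtain ⟨q, hq, hqd⟩ := Nat.exists_prime_and_dvd h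
        have h1 := hR q hq (hqd.trans (Nat.gcd_dvd_right _ _))
        have h2 := Nat.le_of_dvd finrank_pos (hqd.trans (Nat.gcd_dvd_left _ _))
        omega
      have hc2 : c = 1 := by
        have h1 : orderOf c ∣ Nat.gcd (finrank K W) (Nat.card Γ) :=
          Nat.dvd_gcd (orderOf_dvd_of_pow_eq_one hcd) (orderOf_dvd_of_pow_eq_one hcn)
        rw [hcop, Nat.dvd_one, orderOf_eq_one_iff] at h1
        exact h1
      rw [hc2, one_smul] at hc1
      have h5 : x * y = ⁅x, y⁆ * (y * x) := by rw [commutatorElement_def]; group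
      show ρ x * ρ y = ρ y * ρ x
      rw [← map_mul, h5, map_mul, hc1, one_mul, map_mul]
  intro x
  have := key k le_rfl x (by rw [Nat.sub_self, derivedSeries_zero]; trivial)
  exact this

end Pool.Agent.H3.FT
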