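import Pool.Agent.H3.FT.Fix
import Pool.Agent.H3.FT.Defs

/-!
Finite soluble groups whose prime divisors are larger than their rank have a nilpotent
commutator subgroup.
-/

namespace Pool.Agent.H3.FT

open Module
open scoped commutatorElement

theorem fix_add {V : Type*} [AddCommGroup V] [Finite V] [Nontrivial V] {p : ℕ} (hp : p.Prime)
    (hV : ∀ v : V, p • v = 0) {r : ℕ} {T : Finset V} (hT : T.card ≤ r)
    (hT2 : AddSubgroup.closure (T : Set V) = ⊤) {Γ : Type*} [Group Γ] [Finite Γ]
    (hsol : Group.IsSolvable Γ) (φ : Γ →* AddMonoid.End V)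
    (hR : ∀ q : ℕ, q.Prime → q ∣ Nat.card Γ → r < q) :
    ∃ a : V, a ≠ 0 ∧ ∀ x ∈ commutator Γ, φ x a = a := by
  classical
  have : Fact p.Prime := ⟨hp⟩
  obtain ⟨_⟩ : Nonempty (Module (ZMod p) V) := ⟨AddCommGroup.zmodModule hV⟩
  have : FiniteDimensional (ZMod p) V := Module.Finite.of_finite
  have hdim : finrank (ZMod p) V ≤ r := by
    have h1 : Submodule.span (ZMod p) (T : Set V) = ⊤ := by
      rw [eq_top_iff]
      intro v _
      have h2 : v ∈ AddSubgroup.closure (T : Set V) := by rw [hT2]; trivial
      induction h2 using AddSubgroup.closure_induction with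
      | mem x hx => exact Submodule.subset_span hx
      | zero => exact Submodule.zero_mem _
      | add x y _ _ hx hy => exact Submodule.add_mem _ (hx trivial) (hy trivial)
      | neg x _ hx => exact Submodule.neg_mem _ (hx trivial)
    have h2 := finrank_span_finset_le_card (R := ZMod p) T
    rw [Set.finrank, h1, finrank_top] at h2
    exact h2.trans hT
  let ρ : Γ →* End (ZMod p) V :=
    { toFun := fun g => AddMonoidHom.toZModLinearMap p (φ g)
      map_one' := LinearMap.ext fun v => by
        rw [map_one]; rfl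
      map_mul' := fun g h => LinearMap.ext fun v => by
        rw [map_mul]; rfl }
  obtain ⟨v, hv, hfix⟩ := fix_any hsol ρ (fun q hq hd => lt_of_le_of_lt hdim (hR q hq hd))
  exact ⟨v, hv, fun x hx => hfix x hx⟩

/-- a finite soluble group acting on an elementary abelian group with few generators -/
theorem fix_elem {A : Type*} [CommGroup A] [Finite A] [Nontrivial A] {p : ℕ} (hp : p.Prime)
    (hA : ∀ a : A, a ^ p = 1) {r : ℕ} {T : Finset A} (hT : T.card ≤ r)
    (hT2 : Subgroup.closure (T : Set A) = ⊤) {Γ : Type*} [Group Γ] [Finite Γ]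
    (hsol : Group.IsSolvable Γ) (φ : Γ →* MulAut A)
    (hR : ∀ q : ℕ, q.Prime → q ∣ Nat.card Γ → r < q) :
    ∃ a : A, a ≠ 1 ∧ ∀ x ∈ commutator Γ, φ x a = a := by
  classical
  have : Finite (Additive A) := inferInstanceAs (Finite A)
  have : Nontrivial (Additive A) := inferInstanceAs (Nontrivial A)
  let ψ : Γ →* AddMonoid.End (Additive A) :=
    { toFun := fun g => (MonoidHom.toAdditive ((φ g : MulAut A).toMonoidHom))
      map_one' := by
        ext v
        show Additive.ofMul (φ 1 (Additive.toMul v)) = v
        rw [map_one]; rfl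
      map_mul' := fun g h => by
        ext v
        show Additive.ofMul (φ (g * h) (Additive.toMul v)) =
          Additive.ofMul (φ g (φ h (Additive.toMul v)))
        rw [map_mul]; rfl }
  obtain ⟨v, hv, hfix⟩ := fix_add (V := Additive A) hp (fun v => hA (Additive.toMul v))
    (r := r) (T := T.image Additive.ofMul) (Finset.card_image_le.trans hT) (by
      rw [eq_top_iff]
      intro v _
      have h2 : (Additive.toMul v) ∈ Subgroup.closure (T : Set A) := by rw [hT2]; trivial
      have h3 : ∀ y ∈ Subgroup.closure (T : Set A), (Additive.ofMul y : Additive A) ∈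
          AddSubgroup.closure ((T.image Additive.ofMul : Finset (Additive A)) :
            Set (Additive A)) := by
        intro y hy
        induction hy using Subgroup.closure_induction with
        | mem x hx =>
          apply AddSubgroup.subset_closure
          rw [Finset.coe_image]
          exact ⟨x, hx, rfl⟩
        | one => exact AddSubgroup.zero_mem _
        | mul x y _ _ hx hy => exact AddSubgroup.add_mem _ hx hy
        | inv x _ hx => exact AddSubgroup.neg_mem _ hx
      exact h3 _ h2) hsol ψ hR
  exact ⟨Additive.toMul v, fun h => hv h, fun x hx => hfix x hx⟩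

/-- a minimal normal subgroup of a finite soluble group is elementary abelian -/
theorem min_elem {G : Type*} [Group G] [Finite G] (hsol : Group.IsSolvable G) (N : Subgroup G)
    [N.Normal] (hN : N ≠ ⊥) (hmin : ∀ M : Subgroup G, M.Normal → M ≤ N → M = ⊥ ∨ M = N) :
    (∀ x ∈ N, ∀ y ∈ N, x * y = y * x) ∧ ∃ p : ℕ, p.Prime ∧ ∀ x ∈ N, x ^ p = 1 := by
  classical
  have hNs : Group.IsSolvable N := inferInstance
  have hab : ⁅N, N⁆ = ⊥ := by
    refine (hmin ⁅N, N⁆ inferInstance (Subgroup.commutator_le_left N N)).resolve_right ?_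
    intro h
    have : Nontrivial N := (Subgroup.nontrivial_iff_ne_bot N).2 hN
    have h1 := Group.IsSolvable.commutator_lt_top_of_nontrivial N
    apply h1.ne
    have h2 : (commutator N).map N.subtype = ⁅N, N⁆ := by
      rw [commutator_def, Subgroup.map_commutator, ← MonoidHom.range_eq_map,
        Subgroup.range_subtype]
    rw [h] at h2
    apply Subgroup.map_injective N.subtype_injective
    rw [h2, ← MonoidHom.range_eq_map, Subgroup.range_subtype]
  have hcomm : ∀ x ∈ N, ∀ y ∈ N, x * y = y * x := by
    intro x hx y hy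
    have h1 : ⁅x, y⁆ ∈ ⁅N, N⁆ := Subgroup.commutator_mem_commutator hx hy
    rw [hab, Subgroup.mem_bot, commutatorElement_eq_one_iff_mul_comm] at h1
    exact h1
  have hcard : Nat.card N ≠ 1 := by
    intro h
    exact hN (Subgroup.eq_bot_of_card_eq N h)
  obtain ⟨p, hp, hpd⟩ := Nat.exists_prime_and_dvd hcard
  have : Fact p.Prime := ⟨hp⟩
  let M : Subgroup G :=
    { carrier := {x | x ∈ N ∧ x ^ p = 1}
      one_mem' := ⟨N.one_mem, one_pow p⟩
      mul_mem' := fun {a b} ha hb => ⟨N.mul_mem ha.1 hb.1, by
        rw [(show Commute a b from hcomm a ha.1 b hb.1).mul_pow, ha.2, hb.2, one_mul]⟩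
      inv_mem' := fun {a} ha => ⟨N.inv_mem ha.1, by rw [inv_pow, ha.2, inv_one]⟩ }
  have hMn : M.Normal := ⟨fun n hn g => by
    have hNn : N.Normal := inferInstance
    refine ⟨hNn.conj_mem n hn.1 g, ?_⟩
    rw [conj_pow, hn.2, mul_one, mul_inv_cancel]⟩
  have hMN : M = N := by
    refine (hmin M hMn (fun x hx => hx.1)).resolve_left ?_
    intro h
    obtain ⟨x, hx⟩ := exists_prime_orderOf_dvd_card' (G := N) p hpd
    have h1 : (x : G) ∈ M := ⟨x.2, by
      have : x ^ p = 1 := by rw [← hx]; exact pow_orderOf_eq_one x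
      have := congrArg Subtype.val this
      simpa using this⟩
    rw [h, Subgroup.mem_bot] at h1
    have h2 : x = 1 := Subtype.ext h1
    rw [h2, orderOf_one] at hx
    exact hp.one_lt.ne hx
  exact ⟨hcomm, p, hp, fun x hx => by rw [← hMN] at hx; exact hx.2⟩

/-- the commutator subgroup centralises every minimal normal subgroup -/
theorem comm_cent_min {G : Type*} [Group G] [Finite G] (hsol : Group.IsSolvable G) {r : ℕ}
    (hr : Rk r G) (hb : Big r G) (N : Subgroup G) [N.Normal] (hN : N ≠ ⊥)
    (hmin : ∀ M : Subgroup G, M.Normal → M ≤ N → M = ⊥ ∨ M = N) :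
    ∀ n ∈ N, ∀ g ∈ commutator G, g * n = n * g := by
  classical
  obtain ⟨hcomm, p, hp, hpow⟩ := min_elem hsol N hN hmin
  have : Nontrivial N := (Subgroup.nontrivial_iff_ne_bot N).2 hN
  have hNp : IsPGroup p N := fun x => ⟨1, by
    have := hpow _ x.2
    exact Subtype.ext (by simpa using this)⟩
  obtain ⟨S, hS, hSN⟩ := hr p hp N hNp
  obtain ⟨T, hT, hT2⟩ := exists_gen_sub hSN
  let inst : CommGroup N := { (inferInstance : Group N) with
    mul_comm := fun x y => Subtype.ext (hcomm x x.2 y y.2) }
  obtain ⟨v, hv, hfix⟩ := @fix_elem N inst _ _ p hp (fun a => Subtype.ext (by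
    have := hpow _ a.2
    simpa using this)) r T (hT.trans hS) hT2 G _ _ hsol MulAut.conjNormal hb
  have hCn : (N ⊓ Subgroup.centralizer (commutator G : Set G)).Normal := inferInstance
  have hCN : N ⊓ Subgroup.centralizer (commutator G : Set G) = N := by
    refine (hmin _ hCn inf_le_left).resolve_left ?_
    intro h
    have h1 : (v : G) ∈ N ⊓ Subgroup.centralizer (commutator G : Set G) := by
      refine Subgroup.mem_inf.2 ⟨v.2, ?_⟩
      rw [Subgroup.mem_centralizer_iff]
      intro g hg
      have h2 := congrArg Subtype.val (hfix g hg)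
      rw [MulAut.conjNormal_apply] at h2
      rw [← mul_inv_eq_iff_eq_mul]
      exact h2
    rw [h, Subgroup.mem_bot] at h1
    exact hv (Subtype.ext h1)
  intro n hn g hg
  rw [← hCN] at hn
  exact Subgroup.mem_centralizer_iff.1 (Subgroup.mem_inf.1 hn).2 g hg

/-- minimal normal subgroups exist -/
theorem exists_min {G : Type*} [Group G] [Finite G] [Nontrivial G] :
    ∃ N : Subgroup G, N.Normal ∧ N ≠ ⊥ ∧ ∀ M : Subgroup G, M.Normal → M ≤ N → M = ⊥ ∨ M = N := by
  classical
  have hex : ∃ n, ∃ N : Subgroup G, N.Normal ∧ N ≠ ⊥ ∧ Nat.card N = n :=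
    ⟨_, ⊤, inferInstance, top_ne_bot, rfl⟩
  obtain ⟨N, hN, hNb, hn⟩ := Nat.find_spec hex
  refine ⟨N, hN, hNb, fun M hM hMN => ?_⟩
  by_contra h
  push Not at h
  have h1 := Nat.find_min' hex ⟨M, hM, h.1, rfl⟩
  rw [← hn] at h1
  exact h.2 (Subgroup.eq_of_le_of_card_ge hMN h1)

universe u

/-- the commutator subgroup of a finite soluble group of rank `≤ r` all of whose prime divisors are
larger than `r` is nilpotent -/
theorem nil_comm {r : ℕ} : ∀ (m : ℕ) (G : Type u) [Group G] [Finite G], Nat.card G ≤ m →
    Group.IsSolvable G → Rk r G → Big r G → Group.IsNilpotent (commutator G) := by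
  intro m
  induction m with
  | zero =>
    intro G _ _ hm
    have : 0 < Nat.card G := Nat.card_pos
    omega
  | succ m ih =>
    intro G _ _ hm hsol hr hb
    rcases subsingleton_or_nontrivial G with hs | hs
    · infer_instance
    obtain ⟨N, hNn, hN, hmin⟩ := exists_min (G := G)
    have hcent := comm_cent_min hsol hr hb N hN hmin
    have hlt : Nat.card (G ⧸ N) < Nat.card G := by
      have h1 := N.card_eq_card_quotient_mul_card_subgroup
      have h2 : 1 < Nat.card N := by
        rw [Subgroup.one_lt_card_iff_ne_bot]; exact hN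
      have h3 : 0 < Nat.card (G ⧸ N) := Nat.card_pos
      rw [h1]
      exact lt_mul_of_one_lt_right h3 h2
    have hq : Group.IsNilpotent (commutator (G ⧸ N)) :=
      ih (G ⧸ N) (by omega) inferInstance (hr.quot N) (hb.quot N)
    have hmap : (commutator G).map (QuotientGroup.mk' N) ≤ commutator (G ⧸ N) := by
      rw [commutator_def, Subgroup.map_commutator, commutator_def]
      exact Subgroup.commutator_mono le_top le_top
    let f : commutator G →* commutator (G ⧸ N) :=
      ((QuotientGroup.mk' N).comp (commutator G).subtype).codRestrict _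
        (fun x => hmap ⟨x, x.2, rfl⟩)
    refine Subgroup.isNilpotent_of_ker_le_center f ?_
    intro x hx
    rw [MonoidHom.mem_ker] at hx
    have h1 : ((x : G) : G ⧸ N) = 1 := congrArg Subtype.val hx
    rw [QuotientGroup.eq_one_iff] at h1
    rw [Subgroup.mem_center_iff]
    intro g
    exact Subtype.ext (hcent x h1 g g.2)

theorem nil_commutator {G : Type*} [Group G] [Finite G] (hsol : Group.IsSolvable G) {r : ℕ}
    (hr : Rk r G) (hb : Big r G) : Group.IsNilpotent (commutator G) :=
  nil_comm _ G le_rfl hsol hr hb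

end Pool.Agent.H3.FT
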