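import Pool.Agent.H3.FT.S45

/-!
Section 4 of the local analysis (commuting Sylow subgroups, normal `p`-parts).
`p ∈ σ(M)` is written `∃ T : Sylow p G, M ≤ normalizer T`.
-/

namespace Pool.Agent.H3.FT

open Subgroup H51.FT H57.FT
open scoped Pointwise

variable {G : Type*} [Group G] [Finite G] [IsSimpleGroup G]

variable (hG : _root_.commutator G = ⊤) (hodd : Odd (Nat.card G))
  (hNA : ∀ H : Subgroup G, H < ⊤ → Group.IsNilpotent (_root_.commutator H))
  {p : ℕ} [Fact p.Prime] (P : Sylow p G)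

include hG hodd hNA in
/-- (4.2) a normal `t` subgroup `Y ≠ 1` of `M = N_G(P)`, `t ∉ σ(M)`: all elements of `Y` are bad and
`Y` is cyclic -/
theorem four_two (hP : (P : Subgroup G) ≠ ⊥) {t : ℕ} [Fact t.Prime] {Y : Subgroup G}
    (hYt : IsPGroup t Y) (hYM : Y ≤ normalizer (P : Set G))
    (hYn : normalizer (P : Set G) ≤ normalizer (Y : Set G))
    (hsig : ∀ T : Sylow t G, ¬ normalizer (P : Set G) ≤ normalizer (T : Set G)) :
    IsCyclic Y ∧ ∀ y ∈ Y, y ≠ 1 → ∀ T : Sylow t G, y ∈ T →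
      ¬ centralizer ({y} : Set G) ≤ normalizer (T : Set G) := by
  exact four_two' hG hodd hNA P hP hYt hYM hYn hsig

include hG hodd hNA in
/-- (4.1) commuting Sylow subgroups have the same normaliser -/
theorem four_one (hP : (P : Subgroup G) ≠ ⊥) {s : ℕ} [Fact s.Prime] (hps : p ≠ s) (S : Sylow s G)
    (hS : (S : Subgroup G) ≠ ⊥) (hPS : ∀ a ∈ P, ∀ b ∈ S, a * b = b * a) :
    normalizer (P : Set G) = normalizer (S : Set G) := by
  exact four_one_aux hG hodd hNA P hP hps S hS hPS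

include hG hodd hNA in
/-- (4.3) -/
theorem four_three (hP : (P : Subgroup G) ≠ ⊥) {s : ℕ} [Fact s.Prime] (hps : p ≠ s)
    (S : Sylow s G) {d : G} (hdS : d ∈ S) (hd : d ≠ 1) (hdP : ∀ a ∈ P, a * d = d * a)
    (hgood : centralizer ({d} : Set G) ≤ normalizer (S : Set G)) :
    normalizer (P : Set G) = normalizer (S : Set G) := by
  exact four_three_aux hG hodd hNA P hP hps S hdS hd hdP hgood

include hG hodd hNA in
/-- (4.4) double exclusion -/
theorem four_four {q : ℕ} [Fact q.Prime] (hpq : p ≠ q) (Q : Sylow q G) {x y : G} (hx : x ∈ P)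
    (hxp : orderOf x = p) (hy : y ∈ Q) (hyq : orderOf y = q) (hxy : x * y = y * x)
    (h1 : q ∣ Nat.card (HH x)) (h2 : p ∣ Nat.card (HH y)) : False := by
  exact four_four_aux hG hodd hNA P hpq Q hx hxp hy hyq hxy h1 h2

include hG hodd hNA in
/-- (4.4) double exclusion, element form -/
theorem four_four' {q : ℕ} [Fact q.Prime] (hpq : p ≠ q) (Q : Sylow q G) {x y : G} (hx : x ∈ P)
    (hxp : orderOf x = p) (hy : y ∈ Q) (hyq : orderOf y = q) (h1 : y ∈ HH x) (h2 : x ∈ HH y) :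
    False := by
  refine four_four_aux hG hodd hNA P hpq Q hx hxp hy hyq
    (mem_centralizer_singleton_iff.1 (HH_le y h2)) ?_ ?_
  · have := orderOf_dvd_natCard (⟨y, h1⟩ : HH x)
    rwa [Subgroup.orderOf_mk, hyq] at this
  · have := orderOf_dvd_natCard (⟨x, h2⟩ : HH y)
    rwa [Subgroup.orderOf_mk, hxp] at this

include hG hodd hNA in
/-- (4.5) `d ∈ C_G(P)` of prime order `s ∉ σ(N_G(P))` -/
theorem four_five (hP : (P : Subgroup G) ≠ ⊥) {s : ℕ} [Fact s.Prime] (hps : p ≠ s)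
    (S : Sylow s G) {d : G} (hdS : d ∈ S) (hds : orderOf d = s) (hdP : ∀ a ∈ P, a * d = d * a)
    (hsig : ∀ T : Sylow s G, ¬ normalizer (P : Set G) ≤ normalizer (T : Set G)) :
    Bad S d ∧ centralizer ({d} : Set G) ≤ normalizer (P : Set G) ∧ (P : Subgroup G) ≤ HH d ∧
      ∀ q : ℕ, q.Prime → q ∣ Nat.card (HH d) →
        ∃ T : Sylow q G, normalizer (P : Set G) ≤ normalizer (T : Set G) := by
  obtain ⟨h1, h2, h3, -⟩ := four_five_one hG hodd hNA P hP hps S hdS hds hdP hsig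
  exact ⟨h1, h2, h3, four_five_aux hG hodd hNA P hP hps S hdS hds hdP hsig⟩

end Pool.Agent.H3.FT
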