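import Pool.Agent.H3.FT.Cop3
import Pool.Agent.H51.FT.Kp
import Pool.Agent.H23.FT.Ptwo

/-!
4.4 (double exclusion), abstract form.
-/

namespace Pool.Agent.H3.FT

open Subgroup H51.FT
open scoped Pointwise commutatorElement

variable {G : Type*} [Group G] [Finite G]

/-- in a `p` subgroup commuting with `x` and `y` every element of order `p` is a power of `x` -/
theorem s44_uniq {p : ℕ} [Fact p.Prime] {x y : G} {R HX : Subgroup G}
    (hy1 : y ≠ 1)
    (hR : IsSyl p (centralizer {x}) R) (hHn : centralizer {x} ≤ normalizer (HX : Set G))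
    (hyH : y ∈ HX)
    (h310 : ∀ a ∈ R, a ^ p = 1 → a ∉ zpowers x → ∀ h ∈ HX, h * a = a * h → h = 1)
    {T : Subgroup G} (hT : IsPGroup p T) (hTx : T ≤ centralizer {x})
    (hTy : ∀ t ∈ T, t * y = y * t) : ∀ a ∈ T, a ^ p = 1 → a ∈ zpowers x := by
  intro a ha hap
  by_contra hax
  obtain ⟨S, hS, hTS⟩ := exists_isSyl hTx hT
  obtain ⟨c, hc, hcS⟩ := hS.exists_conj hR
  have haS : c * a * c⁻¹ ∈ R := by
    rw [← hcS]
    exact Subgroup.smul_mem_pointwise_smul a (MulAut.conj c) S (hTS ha)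
  have hcx : c * x = x * c := (mem_centralizer_singleton_iff.1 hc)
  have hyc : c * y * c⁻¹ ∈ HX := (mem_normalizer_iff.1 (hHn hc) y).1 hyH
  have h1 := h310 _ haS (by rw [conj_pow, hap]; group) (by
    intro h
    apply hax
    obtain ⟨k, hk⟩ := mem_zpowers_iff.1 h
    refine mem_zpowers_iff.2 ⟨k, ?_⟩
    have h2 : Commute c (x ^ k) := (show Commute c x from hcx).zpow_right k
    have h3 : a = c⁻¹ * (c * a * c⁻¹) * c := by group
    rw [h3, ← hk, mul_assoc, ← h2.eq]; group) _ hyc (by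
    have := hTy a ha
    calc c * y * c⁻¹ * (c * a * c⁻¹) = c * (y * a) * c⁻¹ := by group
      _ = c * (a * y) * c⁻¹ := by rw [this]
      _ = _ := by group)
  apply hy1
  have h2 : y = c⁻¹ * (c * y * c⁻¹) * c := by group
  rw [h2, h1]; group

/-- a `p` group `J` centralised by `y` and containing `x` is cyclic -/
theorem s44_cyc {p : ℕ} [hp : Fact p.Prime] (hp2 : p ≠ 2) {x y : G} (hx : x ^ p = 1) (hx1 : x ≠ 1)
    {J : Subgroup G} (hJ : IsPGroup p J) (hxJ : x ∈ J) (hJy : ∀ t ∈ J, t * y = y * t)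
    (huniq : ∀ T : Subgroup G, IsPGroup p T → T ≤ centralizer {x} → (∀ t ∈ T, t * y = y * t) →
      ∀ a ∈ T, a ^ p = 1 → a ∈ zpowers x) : IsCyclic J := by
  have hJc : J ≤ centralizer {x} := by
    have hJb : (⊤ : Subgroup J) ≠ ⊥ := by
      intro h
      have : (⟨x, hxJ⟩ : J) ∈ (⊤ : Subgroup J) := trivial
      rw [h, mem_bot] at this
      exact hx1 (congrArg Subtype.val this)
    obtain ⟨z, -, hzo, hzc⟩ := H23.FT.exists_central hJ (⊤ : Subgroup J) hJb
    have hzx : (z : G) ∈ zpowers x := by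
      refine huniq (J ⊓ centralizer {x}) (hJ.to_le inf_le_left) inf_le_right
        (fun t ht => hJy t ht.1) z ⟨z.2, ?_⟩ ?_
      · refine mem_centralizer_singleton_iff.2 ?_
        have := (mem_center_iff.1 hzc) ⟨x, hxJ⟩
        exact (congrArg Subtype.val this).symm
      · have h1 : z ^ p = 1 := by rw [← hzo]; exact pow_orderOf_eq_one z
        have := congrArg Subtype.val h1
        simpa using this
    have hxz : x ∈ zpowers (z : G) := by
      have h1 : zpowers (z : G) = zpowers x := by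
        apply Subgroup.eq_of_le_of_card_ge (zpowers_le.2 hzx)
        rw [Nat.card_zpowers, Nat.card_zpowers]
        have h2 : orderOf (z : G) = p := by rw [← hzo]; exact Subgroup.orderOf_coe z
        rw [h2]
        exact orderOf_le_of_pow_eq_one hp.out.pos hx
      rw [h1]; exact mem_zpowers x
    intro j hj
    rw [mem_centralizer_singleton_iff]
    obtain ⟨k, rfl⟩ := mem_zpowers_iff.1 hxz
    have := (mem_center_iff.1 hzc) ⟨j, hj⟩
    have h2 : Commute j (z : G) := congrArg Subtype.val this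
    exact (h2.zpow_right k).eq
  apply H23.FT.isCyclic_of_unique_sub hp2 hJ
  intro a ha b hb hap hbp ha1
  have h1 : a ∈ zpowers x := huniq J hJ hJc hJy a ha hap
  have h2 : b ∈ zpowers x := huniq J hJ hJc hJy b hb hbp
  have h3 : zpowers a = zpowers x := by
    apply Subgroup.eq_of_le_of_card_ge (zpowers_le.2 h1)
    rw [Nat.card_zpowers, Nat.card_zpowers, orderOf_eq_prime hap ha1]
    exact orderOf_le_of_pow_eq_one hp.out.pos hx
  rw [h3]; exact h2

omit [Finite G] in
/-- the elements of order `q` of a cyclic group generate the same subgroup -/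
theorem cyc_mem [Finite G] {q : ℕ} (hq : 0 < q) {K : Subgroup G} (hKc : IsCyclic K) {c b : G}
    (hc : c ∈ K) (hb : b ∈ K) (hco : orderOf c = q) (hbq : b ^ q = 1) : b ∈ zpowers c := by
  classical
  have := Fintype.ofFinite K
  have h1 := IsCyclic.card_pow_eq_one_le (α := K) hq
  set Z : Finset K := Finset.univ.filter fun a : K => a ^ q = 1 with hZ
  set Y : Finset K := (zpowers (⟨c, hc⟩ : K) : Set K).toFinset with hY
  have hYZ : Y ⊆ Z := by
    intro a ha
    rw [hY, Set.mem_toFinset] at ha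
    obtain ⟨k, rfl⟩ := mem_zpowers_iff.1 ha
    rw [hZ, Finset.mem_filter]
    refine ⟨Finset.mem_univ _, ?_⟩
    have h2 : (⟨c, hc⟩ : K) ^ q = 1 := Subtype.ext (by
      have : c ^ q = 1 := by rw [← hco]; exact pow_orderOf_eq_one c
      simpa using this)
    rw [← zpow_natCast, ← zpow_mul, mul_comm, zpow_mul, zpow_natCast, h2, one_zpow]
  have hYc : Y.card = q := by
    rw [hY, Set.toFinset_card, ← Nat.card_eq_fintype_card]
    have : Nat.card (zpowers (⟨c, hc⟩ : K)) = q := by
      rw [Nat.card_zpowers, Subgroup.orderOf_mk, hco]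
    exact this
  have hEq : Y = Z := Finset.eq_of_subset_of_card_le hYZ (by rw [hYc]; exact h1)
  have hbZ : (⟨b, hb⟩ : K) ∈ Z := by
    rw [hZ, Finset.mem_filter]
    exact ⟨Finset.mem_univ _, Subtype.ext (by simpa using hbq)⟩
  rw [← hEq, hY, Set.mem_toFinset] at hbZ
  obtain ⟨k, hk⟩ := mem_zpowers_iff.1 hbZ
  exact mem_zpowers_iff.2 ⟨k, by simpa using congrArg Subtype.val hk⟩

/-- a `p` group acting nontrivially on a cyclic `q` group: `p ∣ q - 1` -/
theorem s44_dvd {p q : ℕ} (hp : p.Prime) (hq : q.Prime) (hpq : p ≠ q) {K R : Subgroup G}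
    (hK : IsPGroup q K) (hKc : IsCyclic K) (hR : IsPGroup p R)
    (hRK : R ≤ normalizer (K : Set G)) (hne : ⁅K, R⁆ ≠ ⊥) : p < q := by
  have : Fact q.Prime := ⟨hq⟩
  have : Fact p.Prime := ⟨hp⟩
  -- an element of `R` not centralising `K`
  have h1 : ∃ r ∈ R, ∃ c ∈ K, c * r ≠ r * c := by
    by_contra hcon
    push Not at hcon
    apply hne
    rw [commutator_eq_bot_iff_le_centralizer]
    intro c hc
    rw [mem_centralizer_iff]
    intro r hr
    exact (hcon r hr c hc).symm
  obtain ⟨r, hr, c, hc, hcr⟩ := h1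
  have hro : ¬ q ∣ orderOf r := by
    obtain ⟨k, hk⟩ := hR ⟨r, hr⟩
    have hk' : r ^ p ^ k = 1 := by simpa using congrArg Subtype.val hk
    intro h
    have h2 := h.trans (orderOf_dvd_of_pow_eq_one hk')
    exact hpq ((Nat.prime_dvd_prime_iff_eq hq hp).1 (hq.dvd_of_dvd_pow h2)).symm
  -- so it does not centralise an element of order `q`
  have h2 : ∃ c ∈ K, c ^ q = 1 ∧ c * r ≠ r * c := by
    by_contra hcon
    push Not at hcon
    exact hcr (cyc_cent hq hK hKc hro (hRK hr) hcon c hc)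
  obtain ⟨c, hc, hcq, hcr⟩ := h2
  have hc1 : c ≠ 1 := by
    rintro rfl
    apply hcr; rw [one_mul, mul_one]
  have hco : orderOf c = q := orderOf_eq_prime hcq hc1
  -- `⟨c⟩` is normalised by `R`, which acts on the `q - 1` nontrivial elements
  have hnorm : ∀ s ∈ R, s * c * s⁻¹ ∈ zpowers c := by
    intro s hs
    have h3 : s * c * s⁻¹ ∈ K := (mem_normalizer_iff.1 (hRK hs) c).1 hc
    have h4 : (s * c * s⁻¹) ^ q = 1 := by rw [conj_pow, hcq]; group
    exact cyc_mem hq.pos hKc hc h3 hco h4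
  by_contra hlt
  have hqp : q < p := lt_of_le_of_ne (not_lt.1 hlt) hpq.symm
  have hnormc : ∀ s ∈ R, ∀ a ∈ zpowers c, s * a * s⁻¹ ∈ zpowers c := by
    intro s hs a ha
    obtain ⟨k, rfl⟩ := mem_zpowers_iff.1 ha
    rw [← conj_zpow]
    exact zpow_mem (hnorm s hs) k
  let _ : MulAction R (zpowers c) :=
    { smul := fun s a => ⟨(s : G) * a * (s : G)⁻¹, hnormc s s.2 a a.2⟩
      one_smul := fun a => Subtype.ext (by
        show ((1 : R) : G) * a * ((1 : R) : G)⁻¹ = a
        rw [OneMemClass.coe_one]; group)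
      mul_smul := fun s t a => Subtype.ext (by
        show ((s * t : R) : G) * a * ((s * t : R) : G)⁻¹ =
          (s : G) * ((t : G) * a * (t : G)⁻¹) * (s : G)⁻¹
        rw [Subgroup.coe_mul]; group) }
  have hmod := hR.card_modEq_card_fixedPoints (zpowers c)
  have hcard : Nat.card (zpowers c) = q := by rw [Nat.card_zpowers, hco]
  have hle : Nat.card (MulAction.fixedPoints R (zpowers c)) ≤ Nat.card (zpowers c) :=
    Nat.card_le_card_of_injective Subtype.val Subtype.val_injective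
  have heq : Nat.card (MulAction.fixedPoints R (zpowers c)) = Nat.card (zpowers c) := by
    rw [Nat.ModEq, Nat.mod_eq_of_lt (by omega), Nat.mod_eq_of_lt (by omega)] at hmod
    exact hmod.symm
  have hsurj : ∀ a : zpowers c, a ∈ MulAction.fixedPoints R (zpowers c) := by
    have h3 : Function.Bijective
        (Subtype.val : MulAction.fixedPoints R (zpowers c) → zpowers c) :=
      (Nat.bijective_iff_injective_and_card _).2 ⟨Subtype.val_injective, heq⟩
    intro a
    obtain ⟨b, rfl⟩ := h3.2 a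
    exact b.2
  have h3 := hsurj ⟨c, mem_zpowers c⟩ ⟨r, hr⟩
  have h4 : r * c * r⁻¹ = c := congrArg Subtype.val h3
  apply hcr
  rw [mul_inv_eq_iff_eq_mul] at h4
  exact h4.symm

/-- **(4.4)**, abstract form: `x`, `y` commuting of orders `p ≠ q`; `R`, `S` Sylow subgroups of
`C(x)`, `C(y)` (for `p`, `q`); `y ∈ HX`, `x ∈ HY`, `K` and `J` the Sylow subgroups of `HX`, `HY`
containing `y`, `x`. -/
theorem s44_double {p q : ℕ} [hp : Fact p.Prime] [hq : Fact q.Prime] (hp2 : p ≠ 2) (hq2 : q ≠ 2)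
    (hpq : p ≠ q) {x y : G} (hx : x ^ p = 1) (hx1 : x ≠ 1)
    (hy : y ^ q = 1) (hy1 : y ≠ 1) {R S HX HY J K : Subgroup G}
    (hR : IsSyl p (centralizer {x}) R) (hS : IsSyl q (centralizer {y}) S)
    (hHX : centralizer {x} ≤ normalizer (HX : Set G))
    (hHY : centralizer {y} ≤ normalizer (HY : Set G))
    (hyK : y ∈ K) (hxJ : x ∈ J) (hKH : K ≤ HX) (hJH : J ≤ HY) (hK : IsPGroup q K)
    (hJ : IsPGroup p J) (hKx : K ≤ centralizer {x}) (hJy : J ≤ centralizer {y})
    (hKn : centralizer {x} ≤ normalizer (K : Set G))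
    (hJn : centralizer {y} ≤ normalizer (J : Set G))
    (h310x : ∀ a ∈ R, a ^ p = 1 → a ∉ zpowers x → ∀ h ∈ HX, h * a = a * h → h = 1)
    (h310y : ∀ a ∈ S, a ^ q = 1 → a ∉ zpowers y → ∀ h ∈ HY, h * a = a * h → h = 1)
    (hRK : ∀ h ∈ HX, (∀ r ∈ R, h * r = r * h) → h = 1)
    (hSJ : ∀ h ∈ HY, (∀ s ∈ S, h * s = s * h) → h = 1) : False := by
  have hJc : IsCyclic J := by
    refine s44_cyc hp2 hx hx1 (y := y) hJ hxJ
      (fun t ht => mem_centralizer_singleton_iff.1 (hJy ht)) ?_
    intro T hT hTx hTy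
    exact s44_uniq hy1 hR hHX (hKH hyK) h310x hT hTx hTy
  have hKc : IsCyclic K := by
    refine s44_cyc hq2 hy hy1 (y := x) hK hyK
      (fun t ht => mem_centralizer_singleton_iff.1 (hKx ht)) ?_
    intro T hT hTx hTy
    exact s44_uniq hx1 hS hHY (hJH hxJ) h310y hT hTx hTy
  have h1 : p < q := by
    refine s44_dvd hp.out hq.out hpq hK hKc hR.2.1 (hR.1.trans hKn) ?_
    intro h
    rw [commutator_eq_bot_iff_le_centralizer] at h
    exact hy1 (hRK y (hKH hyK) fun r hr => (mem_centralizer_iff.1 (h hyK) r hr).symm)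
  have h2 : q < p := by
    refine s44_dvd hq.out hp.out hpq.symm hJ hJc hS.2.1 (hS.1.trans hJn) ?_
    intro h
    rw [commutator_eq_bot_iff_le_centralizer] at h
    exact hx1 (hSJ x (hJH hxJ) fun r hr => (mem_centralizer_iff.1 (h hxJ) r hr).symm)
  omega

end Pool.Agent.H3.FT
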