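import Pool.Agent.H57.FT.BadS
import Pool.Agent.H91.FT.S2
import Pool.Agent.H3.FT.S44

/-!
(4.2) of the local analysis.
-/

namespace Pool.Agent.H3.FT

open Subgroup H51.FT H57.FT
open scoped Pointwise

section
variable {G : Type*} [Group G]

/-- adjoin a commuting element of order `t` to an elementary abelian group -/
theorem exists_el_sup {t : ℕ} {A : Subgroup G} (hA : H91.FT.El t A) {z : G} (hz : z ^ t = 1)
    (hcomm : ∀ b ∈ A, b * z = z * b) :
    ∃ E : Subgroup G, H91.FT.El t E ∧ A ≤ E ∧ z ∈ E ∧ ∀ e ∈ E, ∃ b ∈ A, ∃ k : ℤ, e = b * z ^ k := by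
  have hc : ∀ b ∈ A, ∀ k : ℤ, Commute b (z ^ k) := fun b hb k =>
    (show Commute b z from hcomm b hb).zpow_right k
  let E : Subgroup G :=
    { carrier := {g | ∃ b ∈ A, ∃ k : ℤ, g = b * z ^ k}
      one_mem' := ⟨1, A.one_mem, 0, by simp⟩
      mul_mem' := by
        rintro _ _ ⟨b, hb, k, rfl⟩ ⟨c, hc', l, rfl⟩
        refine ⟨b * c, A.mul_mem hb hc', k + l, ?_⟩
        have h1 := (hc c hc' k).eq
        calc b * z ^ k * (c * z ^ l) = b * (z ^ k * c) * z ^ l := by group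
          _ = b * (c * z ^ k) * z ^ l := by rw [h1]
          _ = b * c * z ^ (k + l) := by rw [zpow_add]; group
      inv_mem' := by
        rintro _ ⟨b, hb, k, rfl⟩
        refine ⟨b⁻¹, A.inv_mem hb, -k, ?_⟩
        rw [mul_inv_rev, ← zpow_neg]
        exact (hc b⁻¹ (A.inv_mem hb) (-k)).eq.symm }
  refine ⟨E, ⟨?_, ?_⟩, fun b hb => ⟨b, hb, 0, by simp⟩, ⟨1, A.one_mem, 1, by simp⟩, fun e he => he⟩
  · rintro _ ⟨b, hb, k, rfl⟩
    rw [(hc b hb k).mul_pow, hA.1 b hb, one_mul, ← zpow_natCast, ← zpow_mul, mul_comm, zpow_mul,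
      zpow_natCast, hz, one_zpow]
  · rintro _ ⟨b, hb, k, rfl⟩ _ ⟨c, hc', l, rfl⟩
    have h1 := (hc c hc' k).eq
    have h2 := (hc b hb l).eq
    have h3 := hA.2 b hb c hc'
    calc b * z ^ k * (c * z ^ l) = b * (z ^ k * c) * z ^ l := by group
      _ = b * (c * z ^ k) * z ^ l := by rw [h1]
      _ = (b * c) * (z ^ k * z ^ l) := by group
      _ = (c * b) * (z ^ l * z ^ k) := by rw [h3, ← zpow_add, ← zpow_add, add_comm]
      _ = c * (b * z ^ l) * z ^ k := by group
      _ = c * (z ^ l * b) * z ^ k := by rw [h2]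
      _ = c * z ^ l * (b * z ^ k) := by group

/-- a subgroup containing all elements of exponent `t` of a subgroup `T` is normalised by the
normaliser of `T` -/
theorem norm_omega [Finite G] {t : ℕ} {A T : Subgroup G} (hAT : A ≤ T) (hA : ∀ a ∈ A, a ^ t = 1)
    (h : ∀ a ∈ T, a ^ t = 1 → a ∈ A) : normalizer (T : Set G) ≤ normalizer (A : Set G) := by
  intro n hn
  apply H91.FT.mem_norm
  intro a ha
  apply h _ ((mem_normalizer_iff.1 hn a).1 (hAT ha))
  rw [conj_pow, hA a ha]; group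

theorem exists_ne_one_of_ne_bot {A : Subgroup G} (hA : A ≠ ⊥) : ∃ a ∈ A, a ≠ 1 := by
  by_contra h
  push Not at h
  exact hA ((Subgroup.eq_bot_iff_forall A).2 h)

end

variable {G : Type*} [Group G] [Finite G] [IsSimpleGroup G]

variable (hG : _root_.commutator G = ⊤) (hodd : Odd (Nat.card G))
  (hNA : ∀ H : Subgroup G, H < ⊤ → Group.IsNilpotent (_root_.commutator H))
  {p : ℕ} [Fact p.Prime] (P : Sylow p G)

omit [Finite G] [IsSimpleGroup G] in
include hodd in
theorem ne_two {t : ℕ} [Fact t.Prime] {Y : Subgroup G} (hYt : IsPGroup t Y) (hYb : Y ≠ ⊥) :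
    t ≠ 2 := by
  rintro rfl
  have h1 : 2 ∣ Nat.card Y := by
    rcases hYt.card_eq_or_dvd with h | h
    · exact absurd (Subgroup.card_eq_one.1 h) hYb
    · exact h
  exact (Nat.not_even_iff_odd.2 hodd)
    (even_iff_two_dvd.2 (h1.trans Y.card_subgroup_dvd_card))

include hG hodd hNA in
/-- (4.2) a normal `t` subgroup `Y ≠ 1` of `M = N_G(P)`, `t ∉ σ(M)`: all elements of `Y` are bad and
`Y` is cyclic -/
theorem four_two' (hP : (P : Subgroup G) ≠ ⊥) {t : ℕ} [Fact t.Prime] {Y : Subgroup G}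
    (hYt : IsPGroup t Y) (hYM : Y ≤ normalizer (P : Set G))
    (hYn : normalizer (P : Set G) ≤ normalizer (Y : Set G))
    (hsig : ∀ T : Sylow t G, ¬ normalizer (P : Set G) ≤ normalizer (T : Set G)) :
    IsCyclic Y ∧ ∀ y ∈ Y, y ≠ 1 → ∀ T : Sylow t G, y ∈ T →
      ¬ centralizer ({y} : Set G) ≤ normalizer (T : Set G) := by
  have h12 : SylC t G := sylC hG hNA
  set M := normalizer (P : Set G) with hM
  have hMlt : M < ⊤ := lt_top_iff_ne_top.2 (normalizer_ne_top hG P.2 hP)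
  obtain ⟨Mt, hMt, hYMt⟩ := exists_isSyl hYM hYt
  obtain ⟨K, hK⟩ := exists_isKp (p := t) (hNA M hMlt)
  have hbad : ∀ y ∈ Y, y ≠ 1 → ∀ T : Sylow t G, y ∈ T →
      ¬ centralizer ({y} : Set G) ≤ normalizer (T : Set G) := by
    intro y hy hy1 T hyT hle
    have hg : Good T y := ⟨hyT, hy1, hle⟩
    have h1 := hg.normalizer_le h12 hMt.2.1 (hYMt hy)
    have h2 := hK.le_centralizer hYM hYt hYn
    apply hsig T
    intro g hg
    obtain ⟨k, hk, n, hn, rfl⟩ := hK.le_sup_normalizer (hNA M hMlt) hMt g hg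
    refine mul_mem (hle ?_) (h1 hn.2)
    rw [mem_centralizer_singleton_iff]
    exact (mem_centralizer_iff.1 (h2 hk) y hy).symm
  refine ⟨?_, hbad⟩
  by_contra hnc
  have hYb : Y ≠ ⊥ := by
    rintro rfl
    exact hnc inferInstance
  have ht2 : t ≠ 2 := ne_two hodd hYt hYb
  obtain ⟨A, hAY, hYA, hAc, hAe, hAcm⟩ := H23.FT.exists_normal_el2_sub ht2 hYt hnc
  obtain ⟨T, hT⟩ := hMt.2.1.exists_le_sylow
  have hAT : A ≤ T := hAY.trans (hYMt.trans hT)
  have hAb : A ≠ ⊥ := by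
    rintro rfl
    rw [Subgroup.card_bot] at hAc
    have := (Fact.out : t.Prime).one_lt
    nlinarith
  obtain ⟨a, haA, ha1⟩ := exists_ne_one_of_ne_bot hAb
  -- elementary abelian subgroups of `C_T(a)` have order at most `t ^ 2`
  have hcard : ∀ E : Subgroup G, E ≤ T → (∀ e ∈ E, e * a = a * e) → H91.FT.El t E →
      Nat.card E ≤ t ^ 2 := fun E hE hEx hel =>
    H91.FT.card_le_of_bad hG hNA ht2 T (hAT haA) (hAe a haA) ha1
      (hbad a (hAY haA) ha1 T (hAT haA)) hE hEx hel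
  -- a central element
  have hTb : (⊤ : Subgroup T) ≠ ⊥ := by
    intro h
    have : (⟨a, hAT haA⟩ : T) ∈ (⊤ : Subgroup T) := trivial
    rw [h, mem_bot] at this
    exact ha1 (congrArg Subtype.val this)
  obtain ⟨z, -, hzo, hzc⟩ := H23.FT.exists_central T.2 (⊤ : Subgroup T) hTb
  have hzc' : ∀ b ∈ T, b * (z : G) = z * b := fun b hb =>
    congrArg Subtype.val ((mem_center_iff.1 hzc) ⟨b, hb⟩)
  have hzo' : orderOf (z : G) = t := by rw [Subgroup.orderOf_coe]; exact hzo
  have hzt : (z : G) ^ t = 1 := orderOf_dvd_iff_pow_eq_one.1 (dvd_of_eq hzo')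
  have hz1 : (z : G) ≠ 1 := by
    intro h
    rw [h, orderOf_one] at hzo'
    exact (Fact.out : t.Prime).one_lt.ne hzo'
  have hsmall : ∀ E : Subgroup G, E ≤ T → (∀ e ∈ E, e * a = a * e) → H91.FT.El t E →
      A ≤ E → E = A := fun E hE hEx hel hAE =>
    (Subgroup.eq_of_le_of_card_ge hAE (by rw [hAc]; exact hcard E hE hEx hel)).symm
  have hzA : (z : G) ∈ A := by
    obtain ⟨E, hE, hAE, hzE, hform⟩ := exists_el_sup (t := t) (A := A) ⟨hAe, hAcm⟩ hzt
      (fun b hb => hzc' b (hAT hb))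
    have hET : E ≤ T := by
      intro e he
      obtain ⟨b, hb, k, rfl⟩ := hform e he
      exact mul_mem (hAT hb) (zpow_mem z.2 k)
    have := hsmall E hET (fun e he => hE.2 e he a (hAE haA)) hE hAE
    rw [← this]; exact hzE
  -- `T` is abelian
  have hTab : ∀ b ∈ T, ∀ c ∈ T, b * c = c * b := by
    by_contra hnab
    have := good_center_B hG hodd hNA T hnab z.2 hz1 hzc'
    exact hbad z (hAY hzA) hz1 T z.2 this.2.2
  -- `A` contains all elements of order `t` of `T`
  have hAom : ∀ b ∈ T, b ^ t = 1 → b ∈ A := by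
    intro b hb hbt
    obtain ⟨E, hE, hAE, hbE, hform⟩ := exists_el_sup (t := t) (A := A) ⟨hAe, hAcm⟩ hbt
      (fun c hc => hTab c (hAT hc) b hb)
    have hET : E ≤ T := by
      intro e he
      obtain ⟨c, hc, k, rfl⟩ := hform e he
      exact mul_mem (hAT hc) (zpow_mem hb k)
    have := hsmall E hET (fun e he => hE.2 e he a (hAE haA)) hE hAE
    rw [← this]; exact hbE
  have hn1 : normalizer (T : Set G) ≤ normalizer (A : Set G) := norm_omega hAT hAe hAom
  have hn2 : M ≤ normalizer (A : Set G) :=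
    hYn.trans (norm_omega hAY hAe fun b hb hbt => hAom b (hT (hYMt hb)) hbt)
  have hTb' : (T : Subgroup G) ≠ ⊥ := by
    intro h
    have := hAT haA
    rw [h, mem_bot] at this
    exact ha1 this
  have hAtop : A ≠ ⊤ := by
    intro h
    have h1 : (T : Subgroup G) = ⊤ := top_le_iff.1 (h ▸ hAT)
    have h2 := normalizer_ne_top hG T.2 hTb'
    apply h2
    rw [h1]
    exact normalizer_eq_top_iff.2 inferInstance
  have heq := normalizer_eq_of_inv h12 hG hNA T hAb hAtop hTb' hn1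
  exact hsig T (heq ▸ hn2)

end Pool.Agent.H3.FT
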