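import Pool.Agent.H3.FT.S42

/-!
(4.4) of the local analysis.
-/

namespace Pool.Agent.H3.FT

open Subgroup H51.FT H57.FT
open scoped Pointwise

section
variable {G : Type*} [Group G]

/-- powers of a product with a normalised factor -/
theorem pow_mul_norm {N C : Subgroup G} (hn : C ≤ normalizer (N : Set G)) {h m : G} (hh : h ∈ N)
    (hm : m ∈ C) (k : ℕ) : ∃ h' ∈ N, (h * m) ^ k = h' * m ^ k := by
  induction k with
  | zero => exact ⟨1, N.one_mem, by simp⟩
  | succ k ih =>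
    obtain ⟨h', hh', e⟩ := ih
    refine ⟨h' * (m ^ k * h * (m ^ k)⁻¹), N.mul_mem hh'
      ((mem_normalizer_iff.1 (hn (C.pow_mem hm k)) h).1 hh), ?_⟩
    rw [pow_succ, e, pow_succ]; group

/-- elements of order prime to the complement of a normal Hall subgroup lie in it -/
theorem hall_mem [Finite G] {N C : Subgroup G} (hn : C ≤ normalizer (N : Set G))
    (hcop : (Nat.card N).Coprime (Nat.card C)) {y : G}
    (hy : ∃ h ∈ N, ∃ m ∈ C, y = h * m) (hyo : (orderOf y).Coprime (Nat.card C)) : y ∈ N := by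
  obtain ⟨h, hh, m, hm, rfl⟩ := hy
  obtain ⟨h', hh', e⟩ := pow_mul_norm hn hh hm (orderOf (h * m))
  rw [pow_orderOf_eq_one] at e
  have h1 : m ^ orderOf (h * m) ∈ N := by
    have : m ^ orderOf (h * m) = h'⁻¹ := by
      rw [eq_inv_iff_mul_eq_one]
      have h2 : h' * m ^ orderOf (h * m) = 1 := e.symm
      rw [mul_eq_one_iff_eq_inv] at h2
      rw [h2]; group
    rw [this]; exact N.inv_mem hh'
  have h2 : N ⊓ C = ⊥ := (disjoint_of_coprime_natCard hcop).eq_bot
  have h3 : m ^ orderOf (h * m) ∈ N ⊓ C := ⟨h1, C.pow_mem hm _⟩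
  rw [h2, mem_bot] at h3
  have h4 : orderOf m ∣ Nat.gcd (orderOf (h * m)) (Nat.card C) :=
    Nat.dvd_gcd (orderOf_dvd_of_pow_eq_one h3) (by
      rw [← Subgroup.orderOf_mk m hm]; exact orderOf_dvd_natCard _)
  rw [hyo, Nat.dvd_one, orderOf_eq_one_iff] at h4
  rw [h4, mul_one]; exact hh

end

variable {G : Type*} [Group G] [Finite G] [IsSimpleGroup G]

variable (hG : _root_.commutator G = ⊤) (hodd : Odd (Nat.card G))
  (hNA : ∀ H : Subgroup G, H < ⊤ → Group.IsNilpotent (_root_.commutator H))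
  {p : ℕ} [Fact p.Prime] (P : Sylow p G)

include hG hNA in
/-- `x` is bad if `H(x) ≠ 1` -/
theorem bad_of_dvd {x : G} (hx : x ∈ P) (hxp : orderOf x = p) {q : ℕ} (hq : q.Prime)
    (h : q ∣ Nat.card (HH x)) : Bad P x := by
  refine ⟨hx, hxp, fun hle => ?_⟩
  rw [HH_good hG hNA P hx hxp hle, Subgroup.card_bot, Nat.dvd_one] at h
  exact hq.one_lt.ne' h

include hG hodd hNA in
/-- elements of order `q ∣ |H(x)|` of `C_G(x)` lie in `H(x)` -/
theorem mem_HH {x : G} (hx : x ∈ P) (hxp : orderOf x = p) {q : ℕ}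
    (h : q ∣ Nat.card (HH x)) {y : G} (hy : y * x = x * y) {k : ℕ} (hyq : y ^ q ^ k = 1) :
    y ∈ HH x := by
  have hyc : y ∈ centralizer ({x} : Set G) := mem_centralizer_singleton_iff.2 hy
  refine hall_mem (N := HH x) (C := centralizer ({x} : Set G) ⊓ normalizer (P : Set G))
    (inf_le_left.trans (HH_normal x)) (HH_cop hG hodd hNA P hx hxp)
    (HH_dec hG hodd hNA P hx hxp hyc) ?_
  have h1 : orderOf y ∣ q ^ k := orderOf_dvd_of_pow_eq_one hyq
  refine Nat.Coprime.coprime_dvd_left h1 (Nat.Coprime.pow_left k ?_)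
  exact Nat.Coprime.coprime_dvd_left h (HH_cop hG hodd hNA P hx hxp)

include hG hodd hNA in
/-- (4.4) double exclusion -/
theorem four_four_aux {q : ℕ} [Fact q.Prime] (hpq : p ≠ q) (Q : Sylow q G) {x y : G} (hx : x ∈ P)
    (hxp : orderOf x = p) (hy : y ∈ Q) (hyq : orderOf y = q) (hxy : x * y = y * x)
    (h1 : q ∣ Nat.card (HH x)) (h2 : p ∣ Nat.card (HH y)) : False := by
  have hpp : p.Prime := Fact.out
  have hqp : q.Prime := Fact.out
  have hbx := bad_of_dvd hG hNA P hx hxp hqp h1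
  have hby := bad_of_dvd hG hNA Q hy hyq hpp h2
  have hx1 : x ≠ 1 := by rintro rfl; rw [orderOf_one] at hxp; exact hpp.one_lt.ne hxp
  have hy1 : y ≠ 1 := by rintro rfl; rw [orderOf_one] at hyq; exact hqp.one_lt.ne hyq
  have hxpow : x ^ p = 1 := orderOf_dvd_iff_pow_eq_one.1 (dvd_of_eq hxp)
  have hypow : y ^ q = 1 := orderOf_dvd_iff_pow_eq_one.1 (dvd_of_eq hyq)
  have hyH : y ∈ HH x := mem_HH hG hodd hNA P hx hxp h1 hxy.symm (k := 1) (by rw [pow_one]; exact hypow)
  have hxH : x ∈ HH y := mem_HH hG hodd hNA Q hy hyq h2 hxy (k := 1) (by rw [pow_one]; exact hxpow)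
  have hPb : (P : Subgroup G) ≠ ⊥ := by
    intro h; have := hx; rw [← SetLike.mem_coe, ← Sylow.coe_coe, h] at this; exact hx1 (by simpa using this)
  have hQb : (Q : Subgroup G) ≠ ⊥ := by
    intro h; have := hy; rw [← SetLike.mem_coe, ← Sylow.coe_coe, h] at this; exact hy1 (by simpa using this)
  have hp2 : p ≠ 2 := ne_two hodd P.2 hPb
  have hq2 : q ≠ 2 := ne_two hodd Q.2 hQb
  have hnx := HH_nil hG hNA hx1
  have hny := HH_nil hG hNA hy1
  refine s44_double hp2 hq2 hpq hxpow hx1 hypow hy1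
    (R := centralizer ({x} : Set G) ⊓ P) (S := centralizer ({y} : Set G) ⊓ Q)
    (HX := HH x) (HY := HH y) (J := H91.FT.qp p (HH y)) (K := H91.FT.qp q (HH x))
    (isSyl_cent hG hodd hNA P hbx) (isSyl_cent hG hodd hNA Q hby)
    (HH_normal x) (HH_normal y) (H91.FT.mem_qp (k := 1) hyH (by rw [pow_one]; exact hypow))
    (H91.FT.mem_qp (k := 1) hxH (by rw [pow_one]; exact hxpow))
    (H91.FT.qp_le _ _) (H91.FT.qp_le _ _) (H91.FT.isPGroup_qp hqp hnx)
    (H91.FT.isPGroup_qp hpp hny) ((H91.FT.qp_le _ _).trans (HH_le x))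
    ((H91.FT.qp_le _ _).trans (HH_le y)) ?_ ?_ ?_ ?_ ?_ ?_
  · intro g hg
    exact H91.FT.mem_norm fun k hk => H91.FT.qp_conj
      (fun z hz => (mem_normalizer_iff.1 (HH_normal x hg) z).1 hz) hk
  · intro g hg
    exact H91.FT.mem_norm fun k hk => H91.FT.qp_conj
      (fun z hz => (mem_normalizer_iff.1 (HH_normal y hg) z).1 hz) hk
  · intro a ha hap hax h hh hfix
    exact HH_fixA hG hodd hNA P hbx ha.2 hap (mem_centralizer_singleton_iff.1 ha.1) hax hh hfix
  · intro a ha hap hax h hh hfix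
    exact HH_fixA hG hodd hNA Q hby ha.2 hap (mem_centralizer_singleton_iff.1 ha.1) hax hh hfix
  · intro h hh hfix
    exact HH_fix hG hodd hNA P hx hxp hh fun r hr hrx =>
      (hfix r ⟨mem_centralizer_singleton_iff.2 hrx, hr⟩).symm
  · intro h hh hfix
    exact HH_fix hG hodd hNA Q hy hyq hh fun r hr hrx =>
      (hfix r ⟨mem_centralizer_singleton_iff.2 hrx, hr⟩).symm

end Pool.Agent.H3.FT
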