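import Pool.Agent.H3.FT.S43

/-!
(4.1), (4.3), (4.5) of the local analysis.
-/

namespace Pool.Agent.H3.FT

open Subgroup H51.FT H57.FT
open scoped Pointwise

section
variable {G : Type*} [Group G] [Finite G]

/-- order of a Sylow subgroup of `H` -/
theorem card_isSyl {p : ℕ} [Fact p.Prime] {H S : Subgroup G} (h : IsSyl p H S) :
    Nat.card S = p ^ (Nat.card H).factorization p := by
  have h1 := h.toSylow.card_eq_multiplicity
  have h2 : Nat.card (h.toSylow : Subgroup H) = Nat.card S := by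
    have : (h.toSylow : Subgroup H) = S.subgroupOf H := rfl
    rw [this]
    exact Nat.card_congr (subgroupOfEquivOfLe h.1).toEquiv
  rw [← h2]; exact h1

/-- a `p` subgroup of `H` of the right order is a Sylow subgroup -/
theorem isSyl_of_card {p : ℕ} [Fact p.Prime] {H S : Subgroup G} (hSH : S ≤ H) (hS : IsPGroup p S)
    (hc : Nat.card S = p ^ (Nat.card H).factorization p) : IsSyl p H S := by
  refine ⟨hSH, hS, fun T hT hTp hST => ?_⟩
  obtain ⟨k, hk⟩ := IsPGroup.iff_card.1 hTp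
  have h1 : p ^ k ∣ Nat.card H := hk ▸ Subgroup.card_dvd_of_le hT
  have h2 : k ≤ (Nat.card H).factorization p :=
    ((Fact.out : p.Prime).pow_dvd_iff_le_factorization Nat.card_pos.ne').1 h1
  refine (Subgroup.eq_of_le_of_card_ge hST ?_).symm
  rw [hk, hc]
  exact Nat.pow_le_pow_right (Fact.out : p.Prime).pos h2

omit [Finite G] in
/-- `L = N C` with `N ∩ C = 1` -/
theorem card_of_prod {N C L : Subgroup G} (hNL : N ≤ L) (hCL : C ≤ L)
    (hdec : ∀ g ∈ L, ∃ h ∈ N, ∃ m ∈ C, g = h * m) (hcop : (Nat.card N).Coprime (Nat.card C)) :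
    Nat.card L = Nat.card N * Nat.card C := by
  have h2 : N ⊓ C = ⊥ := (disjoint_of_coprime_natCard hcop).eq_bot
  rw [← Nat.card_prod]
  symm
  refine Nat.card_congr (Equiv.ofBijective
    (fun a : N × C => (⟨(a.1 : G) * a.2, mul_mem (hNL a.1.2) (hCL a.2.2)⟩ : L)) ⟨?_, ?_⟩)
  · rintro ⟨a, b⟩ ⟨c, d⟩ h
    have h3 : (a : G) * b = c * d := congrArg Subtype.val h
    have h4 : (c : G)⁻¹ * a = d * (b : G)⁻¹ := by
      rw [inv_mul_eq_iff_eq_mul, ← mul_assoc, ← h3]; group
    have h5 : (c : G)⁻¹ * a ∈ N ⊓ C :=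
      ⟨N.mul_mem (N.inv_mem c.2) a.2, h4 ▸ C.mul_mem d.2 (C.inv_mem b.2)⟩
    rw [h2, mem_bot] at h5
    have h6 : (a : G) = c := by rw [inv_mul_eq_one] at h5; exact h5.symm
    have h7 : (b : G) = d := by
      rw [h4, mul_inv_eq_one] at h5; exact h5.symm
    rw [Prod.mk.injEq]
    exact ⟨Subtype.ext h6, Subtype.ext h7⟩
  · rintro ⟨g, hg⟩
    obtain ⟨h, hh, m, hm, rfl⟩ := hdec g hg
    exact ⟨(⟨h, hh⟩, ⟨m, hm⟩), rfl⟩

/-- `p` subgroups of `L = N C` with `p` prime to `|N|` are conjugate into `C` -/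
theorem conj_into_compl {p : ℕ} [Fact p.Prime] {N C L T : Subgroup G} (hNL : N ≤ L) (hCL : C ≤ L)
    (hdec : ∀ g ∈ L, ∃ h ∈ N, ∃ m ∈ C, g = h * m) (hcop : (Nat.card N).Coprime (Nat.card C))
    (hpN : ¬ p ∣ Nat.card N) (hT : T ≤ L) (hTp : IsPGroup p T) :
    ∃ c ∈ L, ∀ t ∈ T, c * t * c⁻¹ ∈ C := by
  obtain ⟨P0, hP0, -⟩ := exists_isSyl (p := p) (H := C) (T := ⊥) bot_le IsPGroup.of_bot
  have hP0L : IsSyl p L P0 := by
    refine isSyl_of_card (hP0.1.trans hCL) hP0.2.1 ?_
    rw [card_isSyl hP0, card_of_prod hNL hCL hdec hcop,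
      Nat.factorization_mul Nat.card_pos.ne' Nat.card_pos.ne', Finsupp.add_apply,
      Nat.factorization_eq_zero_of_not_dvd hpN, zero_add]
  obtain ⟨S, hS, hTS⟩ := exists_isSyl hT hTp
  obtain ⟨c, hc, hcS⟩ := hS.exists_conj hP0L
  refine ⟨c, hc, fun t ht => hP0.1 ?_⟩
  rw [← hcS]
  exact Subgroup.smul_mem_pointwise_smul t (MulAut.conj c) S (hTS ht)

end

variable {G : Type*} [Group G] [Finite G] [IsSimpleGroup G]

variable (hG : _root_.commutator G = ⊤) (hodd : Odd (Nat.card G))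
  (hNA : ∀ H : Subgroup G, H < ⊤ → Group.IsNilpotent (_root_.commutator H))
  {p : ℕ} [Fact p.Prime] (P : Sylow p G)

include hG hodd hNA in
/-- (4.1) commuting Sylow subgroups have the same normaliser -/
theorem four_one_aux (hP : (P : Subgroup G) ≠ ⊥) {s : ℕ} [Fact s.Prime] (hps : p ≠ s)
    (S : Sylow s G) (hS : (S : Subgroup G) ≠ ⊥) (hPS : ∀ a ∈ P, ∀ b ∈ S, a * b = b * a) :
    normalizer (P : Set G) = normalizer (S : Set G) := by
  have h12s : SylC s G := sylC hG hNA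
  have h12p : SylC p G := sylC hG hNA
  by_contra hne
  set MP := normalizer (P : Set G) with hMP
  set MS := normalizer (S : Set G) with hMS
  have hMPlt : MP < ⊤ := lt_top_iff_ne_top.2 (normalizer_ne_top hG P.2 hP)
  have hMSlt : MS < ⊤ := lt_top_iff_ne_top.2 (normalizer_ne_top hG S.2 hS)
  have hcoP := isCoatom_normalizer h12p hG hNA P hP
  have hcoS := isCoatom_normalizer h12s hG hNA S hS
  have hnle : ¬ MP ≤ MS := by
    intro h
    rcases hcoP.le_iff.1 h with h1 | h1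
    · exact hMSlt.ne h1
    · exact hne h1.symm
  have hSC : (S : Subgroup G) ≤ centralizer (P : Set G) := fun b hb =>
    mem_centralizer_iff.2 fun a ha => hPS a ha b hb
  have hSMP : (S : Subgroup G) ≤ MP := hSC.trans (centralizer_le_normalizer _)
  -- the nilpotent normal `s'` subgroup of `MP`
  obtain ⟨K, hK⟩ := exists_isKp (p := s) (hNA MP hMPlt)
  have hSsyl : IsSyl s MP (S : Subgroup G) := ⟨hSMP, S.2, fun T _ hTp hST => S.3 hTp hST⟩
  have hKn : ¬ K ≤ centralizer ((S : Subgroup G) : Set G) := by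
    intro h
    apply hnle
    intro g hg
    obtain ⟨k, hk, n, hn, rfl⟩ := hK.le_sup_normalizer (hNA MP hMPlt) hSsyl g hg
    exact mul_mem (centralizer_le_normalizer _ (h hk)) hn.2
  -- a prime `t` and a `t` element `w` of `K` not centralising `S`
  obtain ⟨t, ht, w, hwK, hwt, hwS⟩ : ∃ t : ℕ, t.Prime ∧ ∃ w ∈ K, (∃ k, w ^ t ^ k = 1) ∧
      w ∉ centralizer ((S : Subgroup G) : Set G) := by
    by_contra hcon
    push Not at hcon
    apply hKn
    intro k hk
    apply mem_of_parts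
    intro q hq v hv hvq
    exact hcon q hq v ((zpowers_le.2 hk) hv) hvq
  have : Fact t.Prime := ⟨ht⟩
  obtain ⟨kw, hkw⟩ := hwt
  have hw1 : w ≠ 1 := by rintro rfl; exact hwS (one_mem _)
  have hts : s ≠ t := by
    refine part_ne (Fact.out : s.Prime) ht (v := w) ?_ (mem_zpowers w) ⟨kw, hkw⟩ hw1
    intro h
    have h1 : orderOf w ∣ Nat.card K := by
      rw [← Subgroup.orderOf_mk w hwK]; exact orderOf_dvd_natCard _
    have h2 := (Fact.out : s.Prime).coprime_iff_not_dvd.1 hK.cop.symm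
    exact h2 (h.trans h1)
  set Y := H91.FT.qp t K with hY
  have hYt : IsPGroup t Y := H91.FT.isPGroup_qp ht hK.nil
  have hwY : w ∈ Y := H91.FT.mem_qp hwK hkw
  have hYM : Y ≤ MP := (H91.FT.qp_le _ _).trans hK.le
  have hYn : MP ≤ normalizer (Y : Set G) := by
    intro g hg
    exact H91.FT.mem_norm fun k hk => H91.FT.qp_conj
      (fun z hz => (mem_normalizer_iff.1 (hK.le_normalizer hg) z).1 hz) hk
  -- an element of `S` not commuting with `w`
  obtain ⟨b, hb, hbw⟩ : ∃ b ∈ S, b * w ≠ w * b := by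
    by_contra hcon
    push Not at hcon
    exact hwS (mem_centralizer_iff.2 hcon)
  have htp : t ≠ p := by
    rintro rfl
    have h1 : w ∈ P := by
      have h2 : Y ⊔ P = (P : Subgroup G) := by
        apply P.3 _ le_sup_right
        exact IsPGroup.to_sup_of_normal_right' hYt P.2 (hYM.trans le_rfl)
      have h3 : w ∈ Y ⊔ P := mem_sup_left hwY
      rw [h2] at h3; exact h3
    exact hbw (hPS w h1 b hb).symm
  have hInv : H91.FT.Inv (S : Subgroup G) t Y :=
    ⟨hYt, fun a ha x hx => (mem_normalizer_iff.1 (hYn (hSMP ha)) x).1 hx⟩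
  -- Frattini: `MS = C(S) (MS ∩ MP)`
  have hfrat : ∀ g ∈ MS, ∃ c ∈ centralizer ((S : Subgroup G) : Set G), ∃ m ∈ MS ⊓ MP, g = c * m := by
    intro g hg
    have hPC : (P : Subgroup G) ≤ centralizer ((S : Subgroup G) : Set G) := fun a ha =>
      mem_centralizer_iff.2 fun b hb => (hPS a ha b hb).symm
    have hgPC : ((g • P : Sylow p G) : Subgroup G) ≤ centralizer ((S : Subgroup G) : Set G) := by
      rintro x ⟨y, hy, rfl⟩
      rw [mem_centralizer_iff]
      intro b hb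
      have h1 : g⁻¹ * b * g ∈ S := (mem_normalizer_iff''.1 hg b).1 hb
      have h2 := hPS y hy _ h1
      show b * (g * y * g⁻¹) = g * y * g⁻¹ * b
      calc b * (g * y * g⁻¹) = g * ((g⁻¹ * b * g) * y) * g⁻¹ := by group
        _ = g * (y * (g⁻¹ * b * g)) * g⁻¹ := by rw [h2]
        _ = g * y * g⁻¹ * b := by group
    have h1 : IsSyl p (centralizer ((S : Subgroup G) : Set G)) (P : Subgroup G) :=
      ⟨hPC, P.2, fun T _ hTp h => P.3 hTp h⟩
    have h2 : IsSyl p (centralizer ((S : Subgroup G) : Set G)) ((g • P : Sylow p G) : Subgroup G) :=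
      ⟨hgPC, (g • P).2, fun T _ hTp h => (g • P).3 hTp h⟩
    obtain ⟨c, hc, hcP⟩ := h1.exists_conj h2
    have h3 : c⁻¹ * g ∈ MP := by
      rw [hMP, ← Sylow.smul_eq_iff_mem_normalizer, mul_smul]
      have h4 : c • P = g • P := Sylow.ext hcP
      rw [← h4, inv_smul_smul]
    exact ⟨c, hc, c⁻¹ * g, ⟨MS.mul_mem (MS.inv_mem (centralizer_le_normalizer _ hc)) hg, h3⟩,
      by group⟩
  by_cases hsig : ∃ T : Sylow t G, MP ≤ normalizer (T : Set G)
  · obtain ⟨T, hT⟩ := hsig
    have hwT : w ∈ T := by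
      have h2 : Y ⊔ T = (T : Subgroup G) := by
        apply T.3 _ le_sup_right
        exact IsPGroup.to_sup_of_normal_right' hYt T.2 (hYM.trans hT)
      have h3 : w ∈ Y ⊔ T := mem_sup_left hwY
      rw [h2] at h3; exact h3
    have hArr : H91.FT.Arr S T := ⟨hSMP.trans hT, b, hb, w, hwT, hbw⟩
    have hMSc : MS ≤ centralizer ((S : Subgroup G) : Set G) := by
      intro g hg
      obtain ⟨c, hc, m, hm, rfl⟩ := hfrat g hg
      refine mul_mem hc (mem_centralizer_iff.2 fun x hx => ?_)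
      exact (H91.FT.Arr.inf_le hG hNA hts hArr hm.1 (hT hm.2) hx).symm
    have h1 := le_comm_normalizer h12s S hG
    have h2 : ⁅(S : Subgroup G), MS⁆ = ⊥ := by
      rw [commutator_comm, commutator_eq_bot_iff_le_centralizer]
      exact hMSc
    exact hS (le_bot_iff.1 (h2 ▸ h1))
  · push Not at hsig
    obtain ⟨hYc, hYbad⟩ := four_two' hG hodd hNA P hP hYt hYM hYn hsig
    obtain ⟨T, hYT, hArr⟩ := H91.FT.exists_arr hG hNA hts S hInv hb hwY hbw
    have htY : t ∣ Nat.card Y := by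
      rcases hYt.card_eq_or_dvd with h | h
      · exfalso
        have h1 := Subgroup.card_eq_one.1 h
        rw [h1, mem_bot] at hwY
        exact hw1 hwY
      · exact h
    obtain ⟨y, hyt⟩ := exists_prime_orderOf_dvd_card' (G := Y) t htY
    have hyo : orderOf (y : G) = t := by rw [Subgroup.orderOf_coe]; exact hyt
    have hy1 : (y : G) ≠ 1 := by
      intro h; rw [h, orderOf_one] at hyo; exact ht.one_lt.ne hyo
    have hyb : Bad T (y : G) := ⟨hYT y.2, hyo, hYbad y y.2 hy1 T (hYT y.2)⟩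
    have hnz : MP ≤ normalizer (zpowers (y : G) : Set G) := by
      intro g hg
      apply H91.FT.mem_norm
      have h1 : g * y * g⁻¹ ∈ zpowers (y : G) := by
        refine cyc_mem ht.pos hYc y.2 ((mem_normalizer_iff.1 (hYn hg) y).1 y.2) hyo ?_
        rw [conj_pow, orderOf_dvd_iff_pow_eq_one.1 (dvd_of_eq hyo)]; group
      intro k hk
      obtain ⟨i, rfl⟩ := mem_zpowers_iff.1 hk
      rw [← conj_zpow]
      exact zpow_mem h1 i
    by_cases hab : ∀ a ∈ T, ∀ c ∈ T, a * c = c * a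
    · obtain ⟨c, hc, d, hd, hcd⟩ := hArr.2
      have := norm_A hG hodd hNA T hab hyb (hArr.1 hc) (hnz (hSMP hc))
      exact hcd (mem_centralizer_iff.1 this d hd).symm
    · have hTb : (⊤ : Subgroup T) ≠ ⊥ := by
        intro h
        have : (⟨y, hYT y.2⟩ : T) ∈ (⊤ : Subgroup T) := trivial
        rw [h, mem_bot] at this
        exact hy1 (congrArg Subtype.val this)
      obtain ⟨z, -, hzo, hzc⟩ := H23.FT.exists_central T.2 (⊤ : Subgroup T) hTb
      have hzc' : ∀ b ∈ T, b * (z : G) = z * b := fun b hb =>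
        congrArg Subtype.val ((mem_center_iff.1 hzc) ⟨b, hb⟩)
      have hzo' : orderOf (z : G) = t := by rw [Subgroup.orderOf_coe]; exact hzo
      have hzt : (z : G) ^ t = 1 := orderOf_dvd_iff_pow_eq_one.1 (dvd_of_eq hzo')
      have hz1 : (z : G) ≠ 1 := by
        intro h
        rw [h, orderOf_one] at hzo'
        exact ht.one_lt.ne hzo'
      apply hz1
      refine arrow_fix hG hodd hNA S hts T hArr.1 ?_ z.2 ?_
      · intro h
        obtain ⟨c, hc, d, hd, hcd⟩ := hArr.2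
        exact hcd (mem_centralizer_iff.1 (h hc) d hd).symm
      · intro a ha
        refine norm_B hG hodd hNA T hab hyb z.2 hz1 hzt hzc' (hArr.1 ha) (hnz (hSMP ha)) ?_
        intro hd
        have h1 : orderOf a ∣ Nat.card S := by
          have := orderOf_dvd_natCard (⟨a, ha⟩ : S)
          rwa [Subgroup.orderOf_mk] at this
        exact not_dvd_pgroup (Fact.out : s.Prime) ht hts S.2 (hd.trans h1)

include hG hodd hNA in
/-- (4.3) -/
theorem four_three_aux (hP : (P : Subgroup G) ≠ ⊥) {s : ℕ} [Fact s.Prime] (hps : p ≠ s)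
    (S : Sylow s G) {d : G} (hdS : d ∈ S) (hd : d ≠ 1) (hdP : ∀ a ∈ P, a * d = d * a)
    (hgood : centralizer ({d} : Set G) ≤ normalizer (S : Set G)) :
    normalizer (P : Set G) = normalizer (S : Set G) := by
  have hSb : (S : Subgroup G) ≠ ⊥ := by
    intro h
    have h1 : d ∈ (S : Subgroup G) := hdS
    rw [h, mem_bot] at h1
    exact hd h1
  have hPN : (P : Subgroup G) ≤ normalizer (S : Set G) := fun a ha =>
    hgood (mem_centralizer_singleton_iff.2 (hdP a ha))
  by_cases hPS : (P : Subgroup G) ≤ centralizer (S : Set G)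
  · exact four_one_aux hG hodd hNA P hP hps S hSb fun a ha b hb =>
      (mem_centralizer_iff.1 (hPS ha) b hb).symm
  · exact absurd (arrow_fix hG hodd hNA P hps S hPN hPS hdS hdP) hd

include hG hodd hNA in
/-- (4.5), first part -/
theorem four_five_one (hP : (P : Subgroup G) ≠ ⊥) {s : ℕ} [Fact s.Prime] (hps : p ≠ s)
    (S : Sylow s G) {d : G} (hdS : d ∈ S) (hds : orderOf d = s) (hdP : ∀ a ∈ P, a * d = d * a)
    (hsig : ∀ T : Sylow s G, ¬ normalizer (P : Set G) ≤ normalizer (T : Set G)) :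
    Bad S d ∧ centralizer ({d} : Set G) ≤ normalizer (P : Set G) ∧ (P : Subgroup G) ≤ HH d ∧
      (P : Subgroup G) = H91.FT.qp p (HH d) := by
  have hsp : s.Prime := Fact.out
  have hpp : p.Prime := Fact.out
  have hd1 : d ≠ 1 := by rintro rfl; rw [orderOf_one] at hds; exact hsp.one_lt.ne hds
  have hSb : (S : Subgroup G) ≠ ⊥ := by
    intro h
    have h1 : d ∈ (S : Subgroup G) := hdS
    rw [h, mem_bot] at h1
    exact hd1 h1
  have hbad : Bad S d := by
    refine ⟨hdS, hds, fun hgood => ?_⟩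
    have := four_three_aux hG hodd hNA P hP hps S hdS hd1 hdP hgood
    exact hsig S this.le
  have hPd : (P : Subgroup G) ≤ centralizer ({d} : Set G) := fun a ha =>
    mem_centralizer_singleton_iff.2 (hdP a ha)
  have hpd : p ∣ Nat.card (HH d) := by
    by_contra hpd
    obtain ⟨c, hc, hcP⟩ := conj_into_compl (p := p) (HH_le d)
      (C := centralizer ({d} : Set G) ⊓ normalizer (S : Set G)) inf_le_left
      (fun g hg => HH_dec hG hodd hNA S hdS hds hg) (HH_cop hG hodd hNA S hdS hds) hpd hPd P.2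
    have hcent : ∀ a ∈ (c • P : Sylow p G), ∀ b ∈ S, a * b = b * a := by
      rintro _ ⟨a, ha, rfl⟩ b hb
      have h1 := hcP a ha
      have h2 : ¬ s ∣ orderOf (c * a * c⁻¹) := by
        intro h
        have h3 : orderOf (c * a * c⁻¹) ∣ Nat.card P := by
          rw [IsKp.orderOf_conj]
          have := orderOf_dvd_natCard (⟨a, ha⟩ : P)
          rwa [Subgroup.orderOf_mk] at this
        exact not_dvd_pgroup hpp hsp hps P.2 (h.trans h3)
      have h3 := cent_pprime hG hodd hNA S hbad h1.2 (mem_centralizer_singleton_iff.1 h1.1) h2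
      exact (mem_centralizer_iff.1 h3 b hb).symm
    have hcPb : ((c • P : Sylow p G) : Subgroup G) ≠ ⊥ := by
      intro h
      apply hP
      rw [Sylow.coe_subgroup_smul] at h
      have h2 : MulAut.conj c • (P : Subgroup G) = MulAut.conj c • ⊥ := by rw [h, Subgroup.smul_bot]
      exact smul_left_cancel _ h2
    have h1 := four_one_aux hG hodd hNA (c • P) hcPb hps S hSb hcent
    apply hsig (c⁻¹ • S)
    intro g hg
    have h2 : c * g * c⁻¹ ∈ normalizer ((c • P : Sylow p G) : Set G) := by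
      rw [← Sylow.smul_eq_iff_mem_normalizer] at hg ⊢
      rw [mul_smul, mul_smul, inv_smul_smul, hg]
    rw [h1] at h2
    rw [← Sylow.smul_eq_iff_mem_normalizer] at h2 ⊢
    rw [mul_smul, mul_smul] at h2
    calc g • c⁻¹ • S = c⁻¹ • (c • g • c⁻¹ • S) := (inv_smul_smul _ _).symm
      _ = c⁻¹ • S := by rw [h2]
  have hPH : (P : Subgroup G) ≤ HH d := by
    intro a ha
    obtain ⟨k, hk⟩ := P.2 ⟨a, ha⟩
    exact mem_HH hG hodd hNA S hdS hds hpd (hdP a ha) (k := k) (by simpa using congrArg Subtype.val hk)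
  have hPq : (P : Subgroup G) = H91.FT.qp p (HH d) :=
    (P.3 (H91.FT.isPGroup_qp hpp (HH_nil hG hNA hd1)) (H91.FT.le_qp P.2 hPH)).symm
  refine ⟨hbad, ?_, hPH, hPq⟩
  intro g hg
  have : g ∈ normalizer ((H91.FT.qp p (HH d) : Subgroup G) : Set G) :=
    H91.FT.mem_norm fun k hk => H91.FT.qp_conj
      (fun z hz => (mem_normalizer_iff.1 (HH_normal d hg) z).1 hz) hk
  rw [← hPq] at this
  exact this

include hG hodd hNA in
/-- (4.5) `d ∈ C_G(P)` of prime order `s ∉ σ(N_G(P))` -/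
theorem four_five_aux (hP : (P : Subgroup G) ≠ ⊥) {s : ℕ} [Fact s.Prime] (hps : p ≠ s)
    (S : Sylow s G) {d : G} (hdS : d ∈ S) (hds : orderOf d = s) (hdP : ∀ a ∈ P, a * d = d * a)
    (hsig : ∀ T : Sylow s G, ¬ normalizer (P : Set G) ≤ normalizer (T : Set G)) :
    ∀ q : ℕ, q.Prime → q ∣ Nat.card (HH d) →
      ∃ T : Sylow q G, normalizer (P : Set G) ≤ normalizer (T : Set G) := by
  intro q hq hqd
  by_contra hcon
  push Not at hcon
  have : Fact q.Prime := ⟨hq⟩
  have hsp : s.Prime := Fact.out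
  have hpp : p.Prime := Fact.out
  have hd1 : d ≠ 1 := by rintro rfl; rw [orderOf_one] at hds; exact hsp.one_lt.ne hds
  obtain ⟨hbad, hCd, hPH, hPq⟩ := four_five_one hG hodd hNA P hP hps S hdS hds hdP hsig
  have hpq : p ≠ q := by
    rintro rfl
    exact hcon P le_rfl
  have hnil := HH_nil hG hNA hd1
  have hsq : q ≠ s := by
    rintro rfl
    have h1 : q ∣ Nat.card (centralizer ({d} : Set G) ⊓ normalizer (S : Set G) : Subgroup G) := by
      have h2 : d ∈ centralizer ({d} : Set G) ⊓ normalizer (S : Set G) :=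
        ⟨mem_centralizer_singleton_iff.2 rfl, Subgroup.le_normalizer hdS⟩
      have := orderOf_dvd_natCard (⟨d, h2⟩ :
        (centralizer ({d} : Set G) ⊓ normalizer (S : Set G) : Subgroup G))
      rwa [Subgroup.orderOf_mk, hds] at this
    have h2 := Nat.dvd_gcd hqd h1
    rw [HH_cop hG hodd hNA S hdS hds, Nat.dvd_one] at h2
    exact hq.one_lt.ne' h2
  -- an element `v` of order `q` of `HH d`; it commutes with `P`
  obtain ⟨v, hvo, hvH⟩ : ∃ v : G, orderOf v = q ∧ v ∈ HH d := by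
    obtain ⟨v0, hv0⟩ := exists_prime_orderOf_dvd_card' (G := HH d) q hqd
    exact ⟨v0, by rw [Subgroup.orderOf_coe]; exact hv0, v0.2⟩
  have hqH : ∀ w : G, w * d = d * w → (∃ k, w ^ q ^ k = 1) → w ∈ H91.FT.qp q (HH d) := by
    rintro w hw ⟨k, hk⟩
    exact H91.FT.mem_qp (mem_HH hG hodd hNA S hdS hds hqd hw hk) hk
  have hPV : ∀ a ∈ P, ∀ w ∈ H91.FT.qp q (HH d), a * w = w * a := by
    intro a ha w hw
    have hVn : ∀ x ∈ HH d, ∀ k ∈ H91.FT.qp q (HH d), x * k * x⁻¹ ∈ H91.FT.qp q (HH d) :=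
      fun x hx k hk => H91.FT.qp_conj (fun z hz => mul_mem (mul_mem hx hz) (inv_mem hx)) hk
    have hPn : ∀ x ∈ HH d, ∀ k ∈ H91.FT.qp p (HH d), x * k * x⁻¹ ∈ H91.FT.qp p (HH d) :=
      fun x hx k hk => H91.FT.qp_conj (fun z hz => mul_mem (mul_mem hx hz) (inv_mem hx)) hk
    refine H91.FT.comm_of_inf (A := H91.FT.qp p (HH d)) (B := H91.FT.qp q (HH d))
      (fun a ha b hb => hPn b (H91.FT.qp_le _ _ hb) a ha)
      (fun a ha b hb => hVn a (H91.FT.qp_le _ _ ha) b hb)
      (H91.FT.inf_eq_bot hpp hq hpq (H91.FT.isPGroup_qp hpp hnil) (H91.FT.isPGroup_qp hq hnil))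
      ?_ hw
    rw [← hPq]; exact ha
  have hvV : v ∈ H91.FT.qp q (HH d) :=
    H91.FT.mem_qp (k := 1) hvH (by rw [pow_one]; exact orderOf_dvd_iff_pow_eq_one.1 (dvd_of_eq hvo))
  have hvd : v * d = d * v := mem_centralizer_singleton_iff.1 (HH_le d hvH)
  -- a Sylow subgroup containing `v`
  have hvp : IsPGroup q (zpowers v) := zpowers_pgroup (k := 1) (by
    rw [pow_one]; exact orderOf_dvd_iff_pow_eq_one.1 (dvd_of_eq hvo))
  obtain ⟨Q, hQ⟩ := hvp.exists_le_sylow
  have hvQ : v ∈ Q := hQ (mem_zpowers v)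
  obtain ⟨hbadv, -, -, -⟩ := four_five_one hG hodd hNA P hP hpq Q hvQ hvo
    (fun a ha => hPV a ha v hvV) hcon
  have hsv : ¬ s ∣ Nat.card (HH v) := fun h =>
    four_four_aux hG hodd hNA S hsq.symm Q hdS hds hvQ hvo hvd.symm hqd h
  -- `d` is conjugate in `C(v)` to an element centralising `Q`
  have hdv : zpowers d ≤ centralizer ({v} : Set G) := by
    rw [zpowers_le, mem_centralizer_singleton_iff]; exact hvd.symm
  obtain ⟨c, hc, hcd⟩ := conj_into_compl (p := s) (HH_le v)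
      (C := centralizer ({v} : Set G) ⊓ normalizer (Q : Set G)) inf_le_left
      (fun g hg => HH_dec hG hodd hNA Q hvQ hvo hg) (HH_cop hG hodd hNA Q hvQ hvo) hsv hdv
      (zpowers_pgroup (k := 1) (by
        rw [pow_one]; exact orderOf_dvd_iff_pow_eq_one.1 (dvd_of_eq hds)))
  have h1 := hcd d (mem_zpowers d)
  have h2 := cent_pprime hG hodd hNA Q hbadv h1.2 (mem_centralizer_singleton_iff.1 h1.1) (by
    rw [IsKp.orderOf_conj, hds]
    intro h
    exact hsq ((Nat.prime_dvd_prime_iff_eq hq hsp).1 h))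
  -- `Q' = c⁻¹ Q c` commutes with `d`, so it lies in `HH d` and commutes with `P`
  have hQ'd : ∀ w ∈ (c⁻¹ • Q : Sylow q G), w * d = d * w := by
    rintro _ ⟨w, hw, rfl⟩
    have h3 := mem_centralizer_iff.1 h2 w hw
    show c⁻¹ * w * c⁻¹⁻¹ * d = d * (c⁻¹ * w * c⁻¹⁻¹)
    rw [inv_inv]
    calc c⁻¹ * w * c * d = c⁻¹ * (w * (c * d * c⁻¹)) * c := by group
      _ = c⁻¹ * (c * d * c⁻¹ * w) * c := by rw [h3]
      _ = d * (c⁻¹ * w * c) := by group
  have hQ'P : ∀ a ∈ P, ∀ w ∈ (c⁻¹ • Q : Sylow q G), a * w = w * a := by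
    intro a ha w hw
    apply hPV a ha
    apply hqH w (hQ'd w hw)
    obtain ⟨k, hk⟩ := (c⁻¹ • Q).2 ⟨w, hw⟩
    exact ⟨k, by simpa using congrArg Subtype.val hk⟩
  have hQb : ((c⁻¹ • Q : Sylow q G) : Subgroup G) ≠ ⊥ := by
    intro h
    have h3 : c⁻¹ * v * c⁻¹⁻¹ ∈ ((c⁻¹ • Q : Sylow q G) : Subgroup G) := ⟨v, hvQ, rfl⟩
    rw [h, mem_bot] at h3
    have h4 : v = 1 := by
      have : v = c * (c⁻¹ * v * c⁻¹⁻¹) * c⁻¹ := by group
      rw [this, h3]; group
    rw [h4, orderOf_one] at hvo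
    exact hq.one_lt.ne hvo
  have h3 := four_one_aux hG hodd hNA P hP hpq (c⁻¹ • Q) hQb hQ'P
  exact hcon (c⁻¹ • Q) h3.le

end Pool.Agent.H3.FT
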